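import Pool.Agent.TH93.CA.Dist

/-!
# The number of points that are right for some advice
-/

set_option autoImplicit false

namespace Pool.Agent.TH93.CA

open Finset

variable {I J : Type*} [Fintype I] [DecidableEq I] [Fintype J] [DecidableEq J]
variable {W : J → Finset I} {s : ℕ}

open Classical in
/-- one advice: the right points in the window -/
theorem bound_one (hW : Sys W s) {h n T : ℕ} (hh : 1 ≤ h) (hhn : 2 * h ≤ 2 * n) (hs : h + 2 ≤ s)
    (hμ : Fintype.card J = 2 ^ (2 * h) * 2 ^ s) {b : ℕ} (hb : b + 2 ^ n ≤ 2 ^ (2 * h + 1))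
    (hT : 2 ^ n * (2 * T) + 2 ^ (2 * h + 2) ≤ Fintype.card J)
    (Acc : ℕ → (I → Bool) → Prop)
    (hA : ∀ x < 2 ^ n, ∀ z, Acc x z → ∃ U : Finset I, U.card ≤ T ∧
      ∀ z' : I → Bool, (∀ i ∈ U, z' i = z i) → Acc x z') :
    ((univ.filter fun z : I → Bool => (b ≤ (win W z).card ∧ (win W z).card < b + 2 ^ n) ∧
      Cor W Acc b (2 ^ n) z).card : ℝ) ≤ 8 / 2 ^ h * tot I := by
  have h1 : (univ.filter fun z : I → Bool => (b ≤ (win W z).card ∧
      (win W z).card < b + 2 ^ n) ∧ Cor W Acc b (2 ^ n) z) ⊆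
      (range (2 ^ n)).biUnion fun x => CC W Acc b (2 ^ n) x := by
    intro z hz
    rw [mem_filter] at hz
    obtain ⟨_, ⟨h1, h2⟩, h3⟩ := hz
    rw [mem_biUnion]
    refine ⟨(win W z).card - b, mem_range.2 (by omega), ?_⟩
    rw [CC, mem_filter, mem_lev]
    exact ⟨by omega, h3⟩
  have h2 := (card_le_card h1).trans card_biUnion_le
  have h3 : (((univ.filter fun z : I → Bool => (b ≤ (win W z).card ∧
      (win W z).card < b + 2 ^ n) ∧ Cor W Acc b (2 ^ n) z).card : ℕ) : ℝ) ≤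
      ∑ x ∈ range (2 ^ n), ((CC W Acc b (2 ^ n) x).card : ℝ) := by exact_mod_cast h2
  refine h3.trans ?_
  have hp : 2 ^ (2 * h + 2) = 2 * 2 ^ (2 * h + 1) := by rw [pow_succ]; ring
  have hp2 : 0 < 2 ^ (2 * h + 1) := by positivity
  have h2n : 1 ≤ 2 ^ n := Nat.one_le_two_pow
  have hTT : T ≤ 2 ^ n * T := Nat.le_mul_of_pos_left _ h2n
  have hTe : 2 ^ n * (2 * T) = 2 * (2 ^ n * T) := by ring
  have h4 := chain_sum (b := b) (R := 2 ^ n) (T := T) hW (by omega) hA (by omega)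
    (ε := 1 / 2 ^ n) (by
      rw [one_div, inv_mul_eq_div, le_div_iff₀ (by positivity)]
      have h5 : T * 2 ^ n + b + 2 ^ n ≤ Fintype.card J := by
        have : T * 2 ^ n = 2 ^ n * T := by ring
        omega
      have h6 : ((T * 2 ^ n + b + 2 ^ n : ℕ) : ℝ) ≤ Fintype.card J := by exact_mod_cast h5
      push_cast at h6 ⊢
      linarith) (fun k => flat hW hh hs hμ k)
  refine h4.trans (le_of_eq ?_)
  push_cast
  have h7 : (2 : ℝ) ^ n * (1 / 2 ^ n) = 1 := by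
    field_simp
  rw [h7]
  ring

open Classical in
/-- the bound for all advice strings together -/
theorem bound_all (hW : Sys W s) {h n T : ℕ} (hh : 1 ≤ h) (hhn : 2 * h ≤ 2 * n) (hs : h + 2 ≤ s)
    (hμ : Fintype.card J = 2 ^ (2 * h) * 2 ^ s) {b : ℕ} (hn : 1 ≤ n)
    (hb : b + 2 ^ (n - 1) = 2 ^ (2 * h))
    (hT : 2 ^ n * (2 * T) + 2 ^ (2 * h + 2) ≤ Fintype.card J)
    {Θ : Type*} (S : Finset Θ) (Acc : Θ → ℕ → (I → Bool) → Prop)
    (hA : ∀ θ ∈ S, ∀ x < 2 ^ n, ∀ z, Acc θ x z → ∃ U : Finset I, U.card ≤ T ∧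
      ∀ z' : I → Bool, (∀ i ∈ U, z' i = z i) → Acc θ x z') :
    ((univ.filter fun z : I → Bool => ∃ θ ∈ S, Cor W (Acc θ) b (2 ^ n) z).card : ℝ) ≤
      (4 * (2 ^ (2 * h) / 2 ^ (2 * n)) + S.card * (8 / 2 ^ h)) * tot I := by
  have e2 : 2 * 2 ^ (n - 1) = 2 ^ n := by
    rw [← pow_succ']
    congr 1
    omega
  set Out : Finset (I → Bool) := univ.filter fun z : I → Bool =>
    ¬ (b ≤ (win W z).card ∧ (win W z).card < b + 2 ^ n) with hOut
  have h1 : (univ.filter fun z : I → Bool => ∃ θ ∈ S, Cor W (Acc θ) b (2 ^ n) z) ⊆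
      Out ∪ S.biUnion fun θ => univ.filter fun z : I → Bool =>
        (b ≤ (win W z).card ∧ (win W z).card < b + 2 ^ n) ∧ Cor W (Acc θ) b (2 ^ n) z := by
    intro z hz
    rw [mem_filter] at hz
    obtain ⟨_, θ, hθ, hc⟩ := hz
    rw [mem_union, hOut, mem_filter, mem_biUnion]
    by_cases h : b ≤ (win W z).card ∧ (win W z).card < b + 2 ^ n
    · exact Or.inr ⟨θ, hθ, mem_filter.2 ⟨mem_univ _, h, hc⟩⟩
    · exact Or.inl ⟨mem_univ _, h⟩
  have h2 := (card_le_card h1).trans ((card_union_le _ _).trans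
    (Nat.add_le_add_left card_biUnion_le _))
  have h3 : ((univ.filter fun z : I → Bool => ∃ θ ∈ S, Cor W (Acc θ) b (2 ^ n) z).card : ℝ) ≤
      Out.card + ∑ θ ∈ S, ((univ.filter fun z : I → Bool => (b ≤ (win W z).card ∧
        (win W z).card < b + 2 ^ n) ∧ Cor W (Acc θ) b (2 ^ n) z).card : ℝ) := by
    exact_mod_cast h2
  refine h3.trans ?_
  rw [add_mul]
  apply add_le_add
  · have h4 := out_card (I := I) (J := J) hW hμ b (2 ^ (n - 1)) hb Out (by
      intro z hz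
      rw [hOut, mem_filter] at hz
      have := hz.2
      omega)
    have h5 : ((2 ^ (n - 1) : ℕ) : ℝ) ^ 2 = 2 ^ (2 * n) / 4 := by
      have : (2 : ℝ) * ((2 ^ (n - 1) : ℕ) : ℝ) = 2 ^ n := by exact_mod_cast e2
      have h6 : (2 : ℝ) ^ (2 * n) = (2 * ((2 ^ (n - 1) : ℕ) : ℝ)) ^ 2 := by
        rw [this, ← pow_mul]
        congr 1
        ring
      rw [h6]
      ring
    rw [h5] at h4
    have h6 : (0 : ℝ) < 2 ^ (2 * n) / 4 := by positivity
    rw [← le_div_iff₀ h6] at h4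
    refine h4.trans (le_of_eq ?_)
    push_cast
    field_simp
  · have h4 : ∀ θ ∈ S, ((univ.filter fun z : I → Bool => (b ≤ (win W z).card ∧
        (win W z).card < b + 2 ^ n) ∧ Cor W (Acc θ) b (2 ^ n) z).card : ℝ) ≤
        8 / 2 ^ h * tot I := by
      intro θ hθ
      refine bound_one hW hh hhn hs hμ ?_ hT (Acc θ) (hA θ hθ)
      have : 2 ^ (2 * h + 1) = 2 * 2 ^ (2 * h) := by rw [pow_succ]; ring
      have h9 : 2 ^ (n - 1) ≤ 2 ^ (2 * h) := by omega
      omega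
    have h5 := sum_le_card_nsmul S _ _ h4
    rw [nsmul_eq_mul] at h5
    rw [mul_assoc]
    exact h5

end Pool.Agent.TH93.CA
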