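import Pool.Agent.TH93.CA.Ne
import Pool.Agent.H622R2.Exp.M1

/-!
# The complement with the number of the members as advice
-/

set_option autoImplicit false

namespace Pool.Agent.TH93.CA

open Pool.Agent.NPC Pool.Agent.H620R2.Gauge Pool.Agent.H622R2.Exp

/-- decoding of a list of certified strings -/
def ls2 (w : List Bool) : List (List Bool × List Bool) :=
  (unbits (List (List Bool × List Bool)) w).getD []

theorem ls2_bits (l : List (List Bool × List Bool)) : ls2 (bits l) = l := by
  unfold ls2
  rw [unbits_bits]
  rfl

theorem poly_ls2 : Poly ls2 :=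
  (Poly.optCases (o := unbits (List (List Bool × List Bool)))
    (g := fun _ => ([] : List (List Bool × List Bool)))
    (h := fun _ b => b) poly_unbits (NPC.Poly.const _) (Poly.snd Poly.id)).congr fun s => by
      unfold ls2
      cases unbits (List (List Bool × List Bool)) s <;> rfl

theorem ls2_length (w : List Bool) : (ls2 w).length ≤ w.length := by
  unfold ls2
  rcases h : unbits (List (List Bool × List Bool)) w with _ | l
  · simp
  · rw [← bits_of_unbits h, bits_length]
    exact (length_lt_sz l).le

/-- the list of a certificate -/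
abbrev lz (z : List Bool) : List (List Bool × List Bool) := ls2 (unpair z).1

theorem poly_lz : Poly lz := poly_ls2.comp (Poly.fst poly_unpair)

/-- the advice -/
abbrev az (z : List Bool) : List Bool := (unpair (unpair z).2).1

/-- the input -/
abbrev xz (z : List Bool) : List Bool := (unpair (unpair z).2).2

theorem poly_az : Poly az := Poly.fst (poly_unpair.comp (Poly.snd poly_unpair))

theorem poly_xz : Poly xz := Poly.snd (poly_unpair.comp (Poly.snd poly_unpair))

/-- the input for the verifier -/
def WN (y : (ℕ × List Bool) × List Bool) : List Bool :=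
  pairBits ((lz y.1.2).getD y.1.1 ([], [])).2 ((lz y.1.2).getD y.1.1 ([], [])).1

theorem poly_WN : Poly WN := by
  have h1 : Poly (fun y : (ℕ × List Bool) × List Bool =>
      (lz y.1.2).getD y.1.1 (([], []) : List Bool × List Bool)) :=
    Poly.getD (poly_lz.comp (Poly.snd (Poly.fst Poly.id))) (Poly.fst (Poly.fst Poly.id))
      (NPC.Poly.const _)
  exact Pool.Agent.H622R2.poly_pairBits (Poly.snd h1) (Poly.fst h1)

/-- the verdict -/
def HN (β : ℕ → ℕ) (y : List Bool × List Bool) : List Bool :=
  [((lz y.1).all (fun p => decide (p.1.length = (xz y.1).length) && (!decide (p.1 = xz y.1)) &&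
      decide (p.2.length ≤ β (xz y.1).length)) &&
    (lz y.1).all (fun p => decide (((lz y.1).filter
      (fun v => decide (v.1 = p.1))).length ≤ 1))) &&
    (decide ((lz y.1).length = idx (az y.1)) &&
      y.2.zipIdx.all (fun r => r.1 || decide ((lz y.1).length ≤ r.2)))]

theorem poly_HN {β : ℕ → ℕ} (hβ : Poly (fun x : List Bool => β x.length)) : Poly (HN β) := by
  have h0 : Poly (fun y : List Bool × List Bool => lz y.1) := poly_lz.comp (Poly.fst Poly.id)
  have hx : Poly (fun y : List Bool × List Bool => xz y.1) := poly_xz.comp (Poly.fst Poly.id)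
  have ha : Poly (fun y : List Bool × List Bool => az y.1) := poly_az.comp (Poly.fst Poly.id)
  unfold HN
  refine Poly.cons (Poly.and (Poly.and ?_ ?_) (Poly.and ?_ ?_)) (NPC.Poly.const [])
  · refine Poly.all (p := fun (y : List Bool × List Bool) (p : List Bool × List Bool) =>
      decide (p.1.length = (xz y.1).length) && (!decide (p.1 = xz y.1)) &&
        decide (p.2.length ≤ β (xz y.1).length)) h0 ?_
    have hx' : Poly (fun r : (List Bool × List Bool) × (List Bool × List Bool) => xz r.1.1) :=
      hx.comp (Poly.fst Poly.id)
    refine Poly.and (Poly.and (Poly.decide_eq (Poly.length (Poly.fst (Poly.snd Poly.id)))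
      (Poly.length hx')) (Poly.not (Poly.decide_eq (Poly.fst (Poly.snd Poly.id)) hx')))
      (Poly.decide_le (Poly.length (Poly.snd (Poly.snd Poly.id))) ?_)
    exact hβ.comp hx'
  · refine Poly.all (p := fun (y : List Bool × List Bool) (p : List Bool × List Bool) =>
      decide (((lz y.1).filter (fun v => decide (v.1 = p.1))).length ≤ 1)) h0
      (Poly.decide_le (Poly.length ?_) (NPC.Poly.const 1))
    refine Poly.filter (l := fun p : (List Bool × List Bool) × (List Bool × List Bool) =>
      lz p.1.1) (p := fun (p : (List Bool × List Bool) × (List Bool × List Bool)) v =>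
        decide (v.1 = p.2.1)) (h0.comp (Poly.fst Poly.id)) ?_
    exact Poly.decide_eq (Poly.fst (Poly.snd Poly.id)) (Poly.fst (Poly.snd (Poly.fst Poly.id)))
  · exact Poly.decide_eq (Poly.length h0) (M1.poly_idx ha)
  · refine Poly.all (l := fun y : List Bool × List Bool => y.2.zipIdx)
      (p := fun (y : List Bool × List Bool) (r : Bool × ℕ) =>
        r.1 || decide ((lz y.1).length ≤ r.2)) (Poly.zipIdx (Poly.snd Poly.id)) ?_
    exact Poly.or (Poly.fst (Poly.snd Poly.id)) (Poly.decide_le
      (Poly.length (h0.comp (Poly.fst Poly.id))) (Poly.snd (Poly.snd Poly.id)))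

theorem nodup_fst (l : List (List Bool × List Bool)) :
    (∀ p ∈ l, (l.filter (fun v => decide (v.1 = p.1))).length ≤ 1) ↔ (l.map Prod.fst).Nodup := by
  have h0 : ∀ u : List Bool, (l.map Prod.fst).count u =
      (l.filter (fun v => decide (v.1 = u))).length := by
    intro u
    rw [List.count, List.countP_map, List.countP_eq_length_filter]
    congr 1
    apply List.filter_congr
    intro v _
    simp only [Function.comp]
    by_cases h : v.1 = u <;> simp [h]
  rw [List.nodup_iff_count_le_one]
  constructor
  · intro h u
    by_cases hu : u ∈ l.map Prod.fst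
    · obtain ⟨p, hp, rfl⟩ := List.mem_map.1 hu
      rw [h0]
      exact h p hp
    · rw [List.count_eq_zero_of_not_mem hu]
      exact Nat.zero_le 1
  · intro h p _
    rw [← h0]
    exact h _

theorem HN_iff (β : ℕ → ℕ) (V : List Bool → List Bool) (w α x : List Bool) :
    HN β (pairBits w (pairBits α x), (List.range ((Polynomial.X : Polynomial ℕ).eval
      (pairBits w (pairBits α x)).length)).map (fun i => decide (V (WN ((i, pairBits w
        (pairBits α x)), ([] : List Bool))) = [true]))) = [true] ↔
      (∀ p ∈ ls2 w, p.1.length = x.length ∧ p.1 ≠ x ∧ p.2.length ≤ β x.length) ∧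
      ((ls2 w).map Prod.fst).Nodup ∧ (ls2 w).length = idx α ∧
      ∀ p ∈ ls2 w, V (pairBits p.2 p.1) = [true] := by
  have hlen : (ls2 w).length ≤ (pairBits w (pairBits α x)).length := by
    refine (ls2_length w).trans ?_
    rw [length_pairBits]
    omega
  unfold HN WN lz az xz
  simp only [unpair_pairBits, List.cons.injEq, and_true, Bool.and_eq_true, Bool.or_eq_true,
    decide_eq_true_eq, List.all_eq_true, Bool.not_eq_true', decide_eq_false_iff_not,
    Polynomial.eval_X]
  rw [nodup_fst]
  have key : (∀ r ∈ ((List.range (pairBits w (pairBits α x)).length).map (fun i =>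
      decide (V (pairBits ((ls2 w).getD i ([], [])).2 ((ls2 w).getD i ([], [])).1) =
        [true]))).zipIdx, r.1 = true ∨ (ls2 w).length ≤ r.2) ↔
      ∀ p ∈ ls2 w, V (pairBits p.2 p.1) = [true] := by
    constructor
    · intro h p hp
      obtain ⟨i, hi, rfl⟩ := List.getElem_of_mem hp
      have h1 := h (decide (V (pairBits ((ls2 w).getD i ([], [])).2
        ((ls2 w).getD i ([], [])).1) = [true]), i) (by
        rw [List.mem_zipIdx_iff_getElem?]
        simp only [List.getElem?_map]
        rw [List.getElem?_range (by omega)]
        rfl)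
      rcases h1 with h1 | h1
      · have h2 := of_decide_eq_true h1
        rw [List.getD_eq_getElem _ _ hi] at h2
        exact h2
      · dsimp only at h1
        omega
    · rintro h ⟨b, i⟩ hr
      rw [List.mem_zipIdx_iff_getElem?] at hr
      simp only [List.getElem?_map] at hr
      by_cases hi : i < (ls2 w).length
      · left
        rw [List.getElem?_range (by omega)] at hr
        simp only [Option.map_some, Option.some.injEq] at hr
        rw [← hr]
        dsimp only
        rw [decide_eq_true_iff, List.getD_eq_getElem _ _ hi]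
        exact h _ (List.getElem_mem hi)
      · right
        dsimp only
        omega
  rw [key]
  constructor
  · rintro ⟨⟨h1, h2⟩, h3, h4⟩
    exact ⟨fun p hp => ⟨(h1 p hp).1.1, (h1 p hp).1.2, (h1 p hp).2⟩, h2, h3, h4⟩
  · rintro ⟨h1, h2, h3, h4⟩
    exact ⟨⟨fun p hp => ⟨⟨(h1 p hp).1, (h1 p hp).2.1⟩, (h1 p hp).2.2⟩, h2⟩, h3, h4⟩

end Pool.Agent.TH93.CA
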