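import Pool.Agent.TH93.CA.Comb

/-!
# A chain of levels; the distribution of the number of winning cells
-/

set_option autoImplicit false

namespace Pool.Agent.TH93.CA

open Finset

variable {I J : Type*} [Fintype I] [DecidableEq I] [Fintype J] [DecidableEq J]
variable {W : J → Finset I} {s : ℕ}

theorem rec_real (hW : Sys W s) {k : ℕ} (hk : k ≤ Fintype.card J) :
    ((lev W k).card : ℝ) * ((Fintype.card J : ℝ) - k) =
      (lev W (k + 1)).card * ((k + 1) * (2 ^ s - 1)) := by
  have h := step_eq hW k
  have h2 : ((2 ^ s - 1 : ℕ) : ℝ) = 2 ^ s - 1 := by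
    rw [Nat.cast_sub Nat.one_le_two_pow]
    push_cast
    ring
  rw [← h2, ← Nat.cast_sub hk]
  exact_mod_cast h

theorem card_win_le (z : I → Bool) : (win W z).card ≤ Fintype.card J := card_le_univ _

theorem lev_empty {k : ℕ} (hk : Fintype.card J < k) : lev W k = ∅ := by
  rw [Finset.eq_empty_iff_forall_notMem]
  intro z hz
  have := mem_lev.1 hz
  have := card_win_le (W := W) z
  omega

theorem lev_pos (hW : Sys W s) (hs : 1 ≤ s) : ∀ {k : ℕ}, k ≤ Fintype.card J →
    (0 : ℝ) < (lev W k).card := by
  intro k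
  induction k with
  | zero =>
    intro _
    have : (fun _ : I => false) ∈ lev W 0 := by
      rw [mem_lev, card_eq_zero, Finset.eq_empty_iff_forall_notMem]
      intro j hj
      rw [mem_win] at hj
      have h1 : (W j).Nonempty := by
        rw [← card_pos, hW.card]
        omega
      obtain ⟨i, hi⟩ := h1
      exact absurd (hj i hi) (by simp)
    exact_mod_cast card_pos.2 ⟨_, this⟩
  | succ k ih =>
    intro hk
    have h1 := ih (by omega)
    have h2 := rec_real hW (k := k) (by omega)
    have h3 : (0 : ℝ) < (Fintype.card J : ℝ) - k := by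
      have : (k : ℝ) + 1 ≤ Fintype.card J := by exact_mod_cast hk
      linarith
    have h4 : 0 < ((lev W (k + 1)).card : ℝ) * ((k + 1) * (2 ^ s - 1)) := by
      rw [← h2]
      positivity
    have h5 : (0 : ℝ) ≤ ((lev W (k + 1)).card : ℝ) := Nat.cast_nonneg _
    rcases h5.lt_or_eq with h | h
    · exact h
    · rw [← h, zero_mul] at h4
      exact absurd h4 (lt_irrefl _)

section Chain

variable (W) in
/-- `z` is right for the window `[b, b + R)` -/
def Cor (Acc : ℕ → (I → Bool) → Prop) (b R : ℕ) (z : I → Bool) : Prop :=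
  ∀ x < R, (Acc x z ↔ (win W z).card ≤ b + x)

variable (Acc : ℕ → (I → Bool) → Prop) (b R : ℕ)

open Classical in
variable (W) in
/-- the right points in the level `b + x` -/
noncomputable def CC (x : ℕ) : Finset (I → Bool) := (lev W (b + x)).filter fun z => Cor W Acc b R z

open Classical in
variable (W) in
/-- the points in the level `b + x` where a number below `x` is accepted -/
noncomputable def UU (x : ℕ) : Finset (I → Bool) :=
  (lev W (b + x)).filter fun z => ∃ y < R, y < x ∧ Acc y z

variable {Acc b R}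

open Classical in
theorem disj_CU {x : ℕ} : Disjoint (CC W Acc b R x) (UU W Acc b R x) := by
  rw [disjoint_left]
  intro z h1 h2
  rw [CC, mem_filter] at h1
  rw [UU, mem_filter] at h2
  obtain ⟨_, y, hy, hyx, hA⟩ := h2
  have h3 := (h1.2 y hy).1 hA
  have h4 := mem_lev.1 h1.1
  omega

open Classical in
theorem chain_step (hW : Sys W s) {T : ℕ} (hA : ∀ x < R, ∀ z, Acc x z → ∃ U : Finset I,
      U.card ≤ T ∧ ∀ z' : I → Bool, (∀ i ∈ U, z' i = z i) → Acc x z') {x : ℕ} (hx : x < R) :
    ((CC W Acc b R x).card + (UU W Acc b R x).card) * (Fintype.card J - (b + x) - T) ≤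
      (UU W Acc b R (x + 1)).card * ((b + x + 1) * (2 ^ s - 1)) := by
  rw [← card_union_of_disjoint disj_CU]
  have h1 : ∀ z : I → Bool, ∃ U : Finset I, z ∈ CC W Acc b R x ∪ UU W Acc b R x →
      U.card ≤ T ∧ ∃ y < R, y ≤ x ∧ ∀ z' : I → Bool, (∀ i ∈ U, z' i = z i) → Acc y z' := by
    intro z
    by_cases hz : z ∈ CC W Acc b R x ∪ UU W Acc b R x
    · rw [mem_union] at hz
      rcases hz with h | h
      · rw [CC, mem_filter] at h
        have h2 : Acc x z := (h.2 x hx).2 (by rw [mem_lev.1 h.1])
        obtain ⟨U, hU, hU2⟩ := hA x hx z h2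
        exact ⟨U, fun _ => ⟨hU, x, hx, le_rfl, hU2⟩⟩
      · rw [UU, mem_filter] at h
        obtain ⟨_, y, hy, hyx, h2⟩ := h
        obtain ⟨U, hU, hU2⟩ := hA y hy z h2
        exact ⟨U, fun _ => ⟨hU, y, hy, hyx.le, hU2⟩⟩
    · exact ⟨∅, fun h => absurd h hz⟩
  choose U hU using h1
  refine step_le hW (k := b + x) ?_ ?_ U (fun z hz => (hU z hz).1) ?_
  · intro z hz
    rw [mem_union, CC, UU, mem_filter, mem_filter] at hz
    rcases hz with h | h
    · exact h.1
    · exact h.1
  · intro z hz
    rw [UU, mem_filter] at hz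
    exact hz.1
  · intro z hz j hj hd
    obtain ⟨_, y, hy, hyx, h2⟩ := hU z hz
    rw [UU, mem_filter]
    refine ⟨?_, y, hy, by omega, h2 _ fun i hi => ?_⟩
    · rw [mem_lev, win_plant hW, card_insert_of_notMem hj]
      rw [mem_union, CC, UU, mem_filter, mem_filter] at hz
      have : (win W z).card = b + x := by
        rcases hz with h | h
        · exact mem_lev.1 h.1
        · exact mem_lev.1 h.1
      omega
    · unfold plant
      rw [if_neg fun h => disjoint_left.1 hd h hi]

theorem chain_real (hW : Sys W s) (hs : 1 ≤ s) {T : ℕ} (hA : ∀ x < R, ∀ z, Acc x z →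
      ∃ U : Finset I, U.card ≤ T ∧ ∀ z' : I → Bool, (∀ i ∈ U, z' i = z i) → Acc x z')
    (hM : b + R + T < Fintype.card J) {ε : ℝ}
    (hε : (T : ℝ) ≤ ε * ((Fintype.card J : ℝ) - b - R)) : ∀ x ≤ R,
    ∑ y ∈ range x, ((CC W Acc b R y).card : ℝ) / (lev W (b + y)).card ≤
      (UU W Acc b R x).card / (lev W (b + x)).card + x * ε := by
  intro x
  induction x with
  | zero =>
    intro _
    simp only [range_zero, sum_empty, Nat.cast_zero, zero_mul, add_zero]
    positivity
  | succ x ih =>
    intro hx
    have h1 := ih (by omega)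
    have h2 := chain_step (b := b) hW hA (x := x) (by omega)
    have hp := lev_pos hW hs (k := b + x) (by omega)
    have hp1 := lev_pos hW hs (k := b + (x + 1)) (by omega)
    have h3 := rec_real hW (k := b + x) (by omega)
    have hTn : T ≤ Fintype.card J - (b + x) := by omega
    have h4 : (((CC W Acc b R x).card : ℝ) + (UU W Acc b R x).card) *
        ((Fintype.card J : ℝ) - (b + x : ℕ) - T) ≤
        (UU W Acc b R (x + 1)).card * (((b + x : ℕ) + 1) * (2 ^ s - 1)) := by
      have h5 : ((2 ^ s - 1 : ℕ) : ℝ) = 2 ^ s - 1 := by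
        rw [Nat.cast_sub Nat.one_le_two_pow]
        push_cast
        ring
      rw [← h5, ← Nat.cast_sub (by omega), ← Nat.cast_sub hTn]
      exact_mod_cast h2
    have h6 : ((CC W Acc b R x).card : ℝ) + (UU W Acc b R x).card ≤ (lev W (b + x)).card := by
      classical
      have h7 : CC W Acc b R x ∪ UU W Acc b R x ⊆ lev W (b + x) := by
        intro z hz
        rw [mem_union, CC, UU, mem_filter, mem_filter] at hz
        rcases hz with h | h
        · exact h.1
        · exact h.1
      have h8 := card_le_card h7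
      rw [card_union_of_disjoint disj_CU] at h8
      exact_mod_cast h8
    rw [sum_range_succ]
    set c : ℝ := ((CC W Acc b R x).card : ℝ) with hc
    set u : ℝ := ((UU W Acc b R x).card : ℝ) with hu
    set v : ℝ := ((UU W Acc b R (x + 1)).card : ℝ) with hv
    set q : ℝ := ((lev W (b + x)).card : ℝ) with hq
    set q' : ℝ := ((lev W (b + (x + 1))).card : ℝ) with hq'
    have e1 : ((lev W (b + x + 1)).card : ℝ) = q' := rfl
    rw [e1] at h3
    set m : ℝ := (Fintype.card J : ℝ) - (b + x : ℕ) with hm
    set w : ℝ := ((b + x : ℕ) + 1) * (2 ^ s - 1) with hw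
    have hmp : 0 < m := by
      have : ((b + x : ℕ) : ℝ) + 1 ≤ Fintype.card J := by
        have : b + x + 1 ≤ Fintype.card J := by omega
        exact_mod_cast this
      rw [hm]
      linarith
    have hwp : 0 < w := by
      have : 0 < q' * w := by
        rw [← h3]
        positivity
      exact (pos_iff_pos_of_mul_pos this).1 hp1
    have hTm : (T : ℝ) ≤ ε * m := by
      have hε0 : 0 ≤ ε := by
        by_contra hneg
        push Not at hneg
        have h9 : (0 : ℝ) < (Fintype.card J : ℝ) - b - R := by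
          have : (b : ℝ) + R + T < Fintype.card J := by exact_mod_cast hM
          have : (0 : ℝ) ≤ T := Nat.cast_nonneg _
          linarith
        have h10 : ε * ((Fintype.card J : ℝ) - b - R) < 0 := mul_neg_of_neg_of_pos hneg h9
        have : (0 : ℝ) ≤ T := Nat.cast_nonneg _
        linarith
      refine hε.trans (mul_le_mul_of_nonneg_left ?_ hε0)
      have : (x : ℝ) ≤ R := by exact_mod_cast (by omega : x ≤ R)
      rw [hm]
      push_cast
      linarith
    have h9 : c / q + u / q - ε ≤ v / q' := by
      rw [← add_div, le_div_iff₀ hp1, sub_mul]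
      have h10 : (c + u) / q * q' * w = (c + u) * m := by
        field_simp
        nlinarith [h3]
      have h11 : (c + u) ≤ q := h6
      have h12 : 0 ≤ c + u := by positivity
      refine le_of_mul_le_mul_right ?_ hwp
      calc ((c + u) / q * q' - ε * q') * w = (c + u) * m - ε * (q' * w) := by
            rw [sub_mul, h10]
            ring
        _ = (c + u) * m - ε * (q * m) := by rw [h3]
        _ ≤ (c + u) * (m - T) := by nlinarith
        _ ≤ v * w := h4
    have h10 : ((x + 1 : ℕ) : ℝ) * ε = x * ε + ε := by push_cast; ring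
    rw [h10]
    linarith

theorem chain_sum (hW : Sys W s) (hs : 1 ≤ s) {T : ℕ} (hA : ∀ x < R, ∀ z, Acc x z →
      ∃ U : Finset I, U.card ≤ T ∧ ∀ z' : I → Bool, (∀ i ∈ U, z' i = z i) → Acc x z')
    (hM : b + R + T < Fintype.card J) {ε : ℝ}
    (hε : (T : ℝ) ≤ ε * ((Fintype.card J : ℝ) - b - R)) {Q : ℝ}
    (hQ : ∀ k, ((lev W k).card : ℝ) ≤ Q) :
    ∑ y ∈ range R, ((CC W Acc b R y).card : ℝ) ≤ Q * (1 + R * ε) := by
  have h1 := chain_real hW hs hA hM hε R le_rfl
  have hQ0 : 0 ≤ Q := (Nat.cast_nonneg _).trans (hQ 0)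
  have h2 : ((UU W Acc b R R).card : ℝ) / (lev W (b + R)).card ≤ 1 := by
    apply div_le_one_of_le₀ _ (Nat.cast_nonneg _)
    classical
    exact_mod_cast card_filter_le _ _
  calc ∑ y ∈ range R, ((CC W Acc b R y).card : ℝ) ≤
        ∑ y ∈ range R, Q * (((CC W Acc b R y).card : ℝ) / (lev W (b + y)).card) := by
        refine sum_le_sum fun y hy => ?_
        rw [mem_range] at hy
        have h3 := lev_pos hW hs (k := b + y) (by omega)
        have h4 := hQ (b + y)
        rw [mul_div_assoc', le_div_iff₀ h3, mul_comm Q]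
        exact mul_le_mul_of_nonneg_left h4 (Nat.cast_nonneg _)
    _ = Q * ∑ y ∈ range R, (((CC W Acc b R y).card : ℝ) / (lev W (b + y)).card) := by
        rw [mul_sum]
    _ ≤ _ := mul_le_mul_of_nonneg_left (by linarith) hQ0

end Chain

end Pool.Agent.TH93.CA
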