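import Mathlib

/-!
# The number of winning cells: planting a winner

`W j` are disjoint sets of `s` bits (the cells); a cell wins if all its bits are true.
-/

set_option autoImplicit false

namespace Pool.Agent.TH93.CA

open Finset

variable {I J : Type*} [Fintype I] [DecidableEq I] [Fintype J] [DecidableEq J]

/-- the winning cells -/
def win (W : J → Finset I) (z : I → Bool) : Finset J :=
  univ.filter fun j => ∀ i ∈ W j, z i = true

/-- make the cell `j` win -/
def plant (W : J → Finset I) (z : I → Bool) (j : J) : I → Bool :=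
  fun i => if i ∈ W j then true else z i

/-- the content of the cell `j` is replaced by `y` -/
def unplant (W : J → Finset I) (z : I → Bool) (j : J) (y : Finset I) : I → Bool :=
  fun i => if i ∈ W j then decide (i ∈ y) else z i

/-- the content of the cell `j` -/
def cont (W : J → Finset I) (z : I → Bool) (j : J) : Finset I := (W j).filter fun i => z i = true

/-- disjoint cells with `s` bits -/
structure Sys (W : J → Finset I) (s : ℕ) : Prop where
  card : ∀ j, (W j).card = s
  disj : ∀ j k, j ≠ k → Disjoint (W j) (W k)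

variable {W : J → Finset I} {s : ℕ}

theorem mem_win {z : I → Bool} {j : J} : j ∈ win W z ↔ ∀ i ∈ W j, z i = true := by
  simp [win]

theorem win_plant (hW : Sys W s) (z : I → Bool) (j : J) :
    win W (plant W z j) = insert j (win W z) := by
  ext k
  rw [mem_insert, mem_win, mem_win]
  by_cases h : k = j
  · subst h
    simp only [true_or, iff_true]
    intro i hi
    unfold plant
    rw [if_pos hi]
  · simp only [h, false_or]
    refine forall₂_congr fun i hi => ?_
    unfold plant
    rw [if_neg (fun h2 => (disjoint_left.1 (hW.disj k j h) hi h2))]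

theorem win_unplant (hW : Sys W s) (z : I → Bool) (j : J) {y : Finset I}
    (hy : y ∈ (W j).powerset.erase (W j)) : win W (unplant W z j y) = (win W z).erase j := by
  rw [mem_erase, mem_powerset] at hy
  ext k
  rw [mem_erase, mem_win, mem_win]
  by_cases h : k = j
  · subst h
    simp only [ne_eq, not_true_eq_false, false_and, iff_false, not_forall]
    obtain ⟨i, hi, hiy⟩ := Finset.exists_of_ssubset (lt_of_le_of_ne hy.2 hy.1)
    refine ⟨i, hi, ?_⟩
    unfold unplant
    rw [if_pos hi, decide_eq_true_iff]
    exact hiy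
  · simp only [ne_eq, h, not_false_eq_true, true_and]
    refine forall₂_congr fun i hi => ?_
    unfold unplant
    rw [if_neg (fun h2 => (disjoint_left.1 (hW.disj k j h) hi h2))]

theorem cont_mem {z : I → Bool} {j : J} (h : j ∉ win W z) :
    cont W z j ∈ (W j).powerset.erase (W j) := by
  rw [mem_erase, mem_powerset]
  refine ⟨fun h2 => h ?_, filter_subset _ _⟩
  rw [mem_win]
  intro i hi
  rw [← h2, cont, mem_filter] at hi
  exact hi.2

theorem unplant_plant (z : I → Bool) (j : J) : unplant W (plant W z j) j (cont W z j) = z := by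
  funext i
  unfold unplant plant cont
  by_cases h : i ∈ W j
  · simp [h]
  · simp [h]

theorem plant_unplant {z : I → Bool} {j : J} (h : j ∈ win W z) (y : Finset I) :
    plant W (unplant W z j y) j = z := by
  funext i
  unfold unplant plant
  by_cases hi : i ∈ W j
  · simp [hi, mem_win.1 h i hi]
  · simp [hi]

theorem cont_unplant {z : I → Bool} {j : J} {y : Finset I}
    (hy : y ∈ (W j).powerset.erase (W j)) : cont W (unplant W z j y) j = y := by
  rw [mem_erase, mem_powerset] at hy
  ext i
  rw [cont, mem_filter]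
  unfold unplant
  constructor
  · rintro ⟨h1, h2⟩
    rw [if_pos h1, decide_eq_true_iff] at h2
    exact h2
  · intro h
    have h1 := hy.2 h
    refine ⟨h1, ?_⟩
    rw [if_pos h1, decide_eq_true_iff]
    exact h

/-- the points with `k` winning cells -/
def lev (W : J → Finset I) (k : ℕ) : Finset (I → Bool) := univ.filter fun z => (win W z).card = k

theorem mem_lev {k : ℕ} {z : I → Bool} : z ∈ lev W k ↔ (win W z).card = k := by
  simp [lev]

/-- points above -/
def up (W : J → Finset I) (Y : Finset (I → Bool)) : Finset (Σ _ : I → Bool, Σ _ : J, Finset I) :=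
  Y.sigma fun z => (win W z).sigma fun j => (W j).powerset.erase (W j)

theorem card_up (hW : Sys W s) {k : ℕ} {Y : Finset (I → Bool)} (hY : Y ⊆ lev W k) :
    (up W Y).card = Y.card * (k * (2 ^ s - 1)) := by
  unfold up
  rw [card_sigma, sum_const_nat]
  intro z hz
  rw [card_sigma, sum_const_nat (m := 2 ^ s - 1)]
  · rw [mem_lev.1 (hY hz)]
  · intro j _
    rw [card_erase_of_mem (mem_powerset_self _), card_powerset, hW.card]

/-- planting a winner: few cells are touched by the certificates -/
theorem step_le (hW : Sys W s) {k T : ℕ} {X Y : Finset (I → Bool)} (hX : X ⊆ lev W k)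
    (hY : Y ⊆ lev W (k + 1)) (U : (I → Bool) → Finset I) (hU : ∀ z ∈ X, (U z).card ≤ T)
    (h : ∀ z ∈ X, ∀ j, j ∉ win W z → Disjoint (W j) (U z) → plant W z j ∈ Y) :
    X.card * (Fintype.card J - k - T) ≤ Y.card * ((k + 1) * (2 ^ s - 1)) := by
  classical
  rw [← card_up hW hY]
  set G : (I → Bool) → Finset J := fun z =>
    univ.filter fun j => j ∉ win W z ∧ Disjoint (W j) (U z) with hG
  have h1 : X.card * (Fintype.card J - k - T) ≤ (X.sigma G).card := by
    rw [card_sigma, ← smul_eq_mul]
    refine Finset.card_nsmul_le_sum _ _ _ fun z hz => ?_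
    have h2 : (univ : Finset J) ⊆ G z ∪ (win W z ∪
        univ.filter fun j => ¬ Disjoint (W j) (U z)) := by
      intro j _
      rw [hG]
      simp only [mem_union, mem_filter, mem_univ, true_and]
      tauto
    have h3 := (card_le_card h2).trans (card_union_le _ _)
    have h4 := card_union_le (win W z) (univ.filter fun j => ¬ Disjoint (W j) (U z))
    have h5 : (univ.filter fun j => ¬ Disjoint (W j) (U z)).card ≤ (U z).card := by
      have h6 : (univ.filter fun j => ¬ Disjoint (W j) (U z)) ⊆
          (U z).biUnion fun i => univ.filter fun j => i ∈ W j := by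
        intro j hj
        rw [mem_filter, Finset.not_disjoint_iff] at hj
        obtain ⟨i, hi, hi2⟩ := hj.2
        rw [mem_biUnion]
        exact ⟨i, hi2, mem_filter.2 ⟨mem_univ _, hi⟩⟩
      refine (card_le_card h6).trans ((card_biUnion_le_card_mul _ _ 1 fun i _ => ?_).trans ?_)
      · rw [card_le_one]
        intro j hj j' hj'
        rw [mem_filter] at hj hj'
        by_contra hne
        exact disjoint_left.1 (hW.disj j j' hne) hj.2 hj'.2
      · rw [mul_one]
    have h6 := hU z hz
    have h7 := mem_lev.1 (hX hz)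
    rw [card_univ] at h3
    omega
  refine h1.trans ?_
  refine card_le_card_of_injOn (fun p => ⟨plant W p.1 p.2, ⟨p.2, cont W p.1 p.2⟩⟩) ?_ ?_
  · rintro ⟨z, j⟩ hp
    rw [mem_coe, mem_sigma] at hp
    obtain ⟨hz, hj⟩ := hp
    rw [hG] at hj
    simp only [mem_filter, mem_univ, true_and] at hj
    rw [mem_coe, up, mem_sigma, mem_sigma]
    refine ⟨h z hz j hj.1 hj.2, ?_, cont_mem hj.1⟩
    show j ∈ win W (plant W z j)
    rw [win_plant hW]
    exact mem_insert_self _ _
  · rintro ⟨z, j⟩ _ ⟨z', j'⟩ _ he
    simp only [Sigma.mk.injEq, heq_eq_eq] at he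
    obtain ⟨h2, h3, h4⟩ := he
    subst h3
    have h5 := unplant_plant (W := W) z j
    have h6 := unplant_plant (W := W) z' j
    rw [h2, h4, h6] at h5
    rw [h5]

/-- the recurrence for the numbers of points with `k` winning cells -/
theorem step_eq (hW : Sys W s) (k : ℕ) :
    (lev W k).card * (Fintype.card J - k) = (lev W (k + 1)).card * ((k + 1) * (2 ^ s - 1)) := by
  classical
  rw [← card_up hW (Subset.refl _)]
  have h1 : (lev W k).card * (Fintype.card J - k) =
      ((lev W k).sigma fun z => (win W z)ᶜ).card := by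
    rw [card_sigma, sum_const_nat]
    intro z hz
    rw [card_compl, mem_lev.1 hz]
  rw [h1]
  refine Finset.card_bij' (fun p _ => (⟨plant W p.1 p.2, ⟨p.2, cont W p.1 p.2⟩⟩ :
    Σ _ : I → Bool, Σ _ : J, Finset I)) (fun p _ => ⟨unplant W p.1 p.2.1 p.2.2, p.2.1⟩)
    ?_ ?_ ?_ ?_
  · rintro ⟨z, j⟩ hp
    rw [mem_sigma, mem_lev, mem_compl] at hp
    obtain ⟨hz, hj⟩ := hp
    dsimp only at hz hj
    rw [up, mem_sigma, mem_sigma, mem_lev]
    dsimp only
    rw [win_plant hW, card_insert_of_notMem hj, hz]
    exact ⟨rfl, mem_insert_self _ _, cont_mem hj⟩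
  · rintro ⟨z, j, y⟩ hp
    rw [up, mem_sigma, mem_sigma, mem_lev] at hp
    obtain ⟨hz, hj, hy⟩ := hp
    dsimp only at hz hj hy
    rw [mem_sigma, mem_lev, mem_compl]
    dsimp only
    rw [win_unplant hW z j hy, card_erase_of_mem hj, hz]
    exact ⟨rfl, notMem_erase _ _⟩
  · rintro ⟨z, j⟩ _
    dsimp only
    rw [unplant_plant]
  · rintro ⟨z, j, y⟩ hp
    rw [up, mem_sigma, mem_sigma, mem_lev] at hp
    obtain ⟨_, hj, hy⟩ := hp
    dsimp only at hj hy
    dsimp only
    rw [plant_unplant hj, cont_unplant hy]

end Pool.Agent.TH93.CA
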