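import Pool.Agent.H622R2.Exp.Defs
import Pool.Agent.NPC.Num

/-!
# Nondeterministic classes with advice
-/

set_option autoImplicit false

namespace Pool.Agent.TH93.CA

open Pool.Agent.NPC Pool.Agent.H620R2.Gauge

/-- Nondeterministic time polynomial in `b(n)` relative to `A`, with at most `a(n)` bits of advice:
`x` is in `L` if and only if there is a certificate `w` of length at most `b |x|` such that the
verifier accepts `w`, the advice `α |x|` and `x`. The advice depends on the length of the input
only; the verifier works in polynomial time relative to `A` (in the length of its input, which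
contains `w`). -/
def InNTAdv (b a : ℕ → ℕ) (A : Oracle) (L : Set (List Bool)) : Prop :=
  ∃ (V : List Bool → List Bool) (α : ℕ → List Bool), IsFP A V ∧ (∀ n, (α n).length ≤ a n) ∧
    ∀ x, x ∈ L ↔ ∃ w : List Bool, w.length ≤ b x.length ∧
      V (pairBits w (pairBits (α x.length) x)) = [true]

/-- the number of the strings `w` of length `m` that win -/
noncomputable def wins (A : Oracle) (m r : ℕ) : ℕ :=
  Set.ncard {w : List Bool | w.length = m ∧
    ∀ i < m - 2 * (r - r.size), A (w ++ List.replicate i true) = true}

/-- the lower end of the window -/
def thr (r : ℕ) : ℕ := 2 ^ (2 * (r - r.size)) - 2 ^ (r - 1)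

/-- the test language: `x` stands for a number, which is compared with the number of winners -/
def CL (A : Oracle) : Set (List Bool) :=
  {x | thr x.length + valB x < wins A (2 ^ x.length) x.length}

end Pool.Agent.TH93.CA
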