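import Pool.Agent.TH93.CA.Chain

/-!
# The distribution of the number of winning cells: it is flat and concentrated
-/

set_option autoImplicit false

namespace Pool.Agent.TH93.CA

open Finset

variable {I J : Type*} [Fintype I] [DecidableEq I] [Fintype J] [DecidableEq J]
variable {W : J → Finset I} {s : ℕ}

variable (I) in
/-- the number of points -/
noncomputable def tot : ℝ := Fintype.card (I → Bool)

theorem tot_pos : 0 < tot I := by
  unfold tot
  exact_mod_cast Fintype.card_pos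

theorem sum_lev_le (S : Finset ℕ) : ∑ k ∈ S, ((lev W k).card : ℝ) ≤ tot I := by
  classical
  have h1 : ∑ k ∈ S, (lev W k).card ≤ Fintype.card (I → Bool) := by
    rw [← card_biUnion]
    · exact card_le_univ _
    · intro k _ k' _ hne
      rw [Function.onFun, disjoint_left]
      intro z hz hz'
      exact hne ((mem_lev.1 hz).symm.trans (mem_lev.1 hz'))
  unfold tot
  exact_mod_cast h1

theorem sum_fun (f : ℕ → ℝ) : ∑ z : I → Bool, f (win W z).card =
    ∑ k ∈ range (Fintype.card J + 1), ((lev W k).card : ℝ) * f k := by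
  rw [← sum_fiberwise_of_maps_to (g := fun z : I → Bool => (win W z).card)
    (t := range (Fintype.card J + 1))
    (fun z _ => mem_range.2 (Nat.lt_succ_of_le (card_win_le z)))]
  refine sum_congr rfl fun k _ => ?_
  rw [← nsmul_eq_mul, ← sum_const]
  exact sum_congr rfl fun z hz => by rw [(mem_filter.1 hz).2]

/-- the variance, from the recurrence -/
theorem var_rec (q : ℕ → ℝ) (M : ℕ) (μ D : ℝ) (hD : 1 ≤ D) (hM : (M : ℝ) = μ * D)
    (hμ0 : 0 ≤ μ) (hq : ∀ k, 0 ≤ q k)
    (hr : ∀ k ∈ range (M + 1), q k * ((M : ℝ) - k) = q (k + 1) * ((k + 1) * (D - 1)))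
    (hz : q (M + 1) = 0) :
    ∑ k ∈ range (M + 1), q k * ((k : ℝ) - μ) ^ 2 ≤ μ * ∑ k ∈ range (M + 1), q k := by
  obtain ⟨E0, hE0⟩ : ∃ E, E = ∑ k ∈ range (M + 1), q k := ⟨_, rfl⟩
  obtain ⟨E1, hE1⟩ : ∃ E, E = ∑ k ∈ range (M + 1), q k * k := ⟨_, rfl⟩
  obtain ⟨E2, hE2⟩ : ∃ E, E = ∑ k ∈ range (M + 1), q k * k ^ 2 := ⟨_, rfl⟩
  have s1 : ∑ k ∈ range (M + 1), q (k + 1) * ((k : ℝ) + 1) = E1 := by
    have h1 := sum_range_succ' (fun k : ℕ => q k * (k : ℝ)) (M + 1)
    have h2 := sum_range_succ (fun k : ℕ => q k * (k : ℝ)) (M + 1)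
    simp only [Nat.cast_add, Nat.cast_one, Nat.cast_zero, mul_zero, add_zero] at h1 h2
    rw [hz, zero_mul, add_zero] at h2
    rw [← h1, h2, hE1]
  have s2 : ∑ k ∈ range (M + 1), q (k + 1) * ((k : ℝ) + 1) * k = E2 - E1 := by
    have h1 := sum_range_succ' (fun k : ℕ => q k * (k : ℝ) * ((k : ℝ) - 1)) (M + 1)
    have h2 := sum_range_succ (fun k : ℕ => q k * (k : ℝ) * ((k : ℝ) - 1)) (M + 1)
    simp only [Nat.cast_add, Nat.cast_one, Nat.cast_zero, mul_zero, add_zero, zero_mul] at h1 h2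
    rw [hz, zero_mul, zero_mul, add_zero] at h2
    rw [h2] at h1
    have h3 : ∑ k ∈ range (M + 1), q (k + 1) * ((k : ℝ) + 1) * ((k : ℝ) + 1 - 1) =
        ∑ k ∈ range (M + 1), q (k + 1) * ((k : ℝ) + 1) * k :=
      sum_congr rfl fun k _ => by ring
    rw [← h3, ← h1, hE2, hE1, ← sum_sub_distrib]
    exact sum_congr rfl fun k _ => by ring
  have r1 : E1 * (D - 1) = M * E0 - E1 := by
    calc E1 * (D - 1) = ∑ k ∈ range (M + 1), q (k + 1) * (((k : ℝ) + 1) * (D - 1)) := by
          rw [← s1, sum_mul]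
          exact sum_congr rfl fun k _ => by ring
      _ = ∑ k ∈ range (M + 1), q k * ((M : ℝ) - k) := sum_congr rfl fun k hk => (hr k hk).symm
      _ = M * E0 - E1 := by
          rw [hE0, hE1, mul_sum, ← sum_sub_distrib]
          exact sum_congr rfl fun k _ => by ring
  have r2 : (E2 - E1) * (D - 1) = M * E1 - E2 := by
    calc (E2 - E1) * (D - 1) =
          ∑ k ∈ range (M + 1), q (k + 1) * (((k : ℝ) + 1) * (D - 1)) * k := by
          rw [← s2, sum_mul]
          exact sum_congr rfl fun k _ => by ring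
      _ = ∑ k ∈ range (M + 1), q k * ((M : ℝ) - k) * k :=
          sum_congr rfl fun k hk => by rw [hr k hk]
      _ = M * E1 - E2 := by
          rw [hE2, hE1, mul_sum, ← sum_sub_distrib]
          exact sum_congr rfl fun k _ => by ring
  have hDp : (0 : ℝ) < D := by linarith
  rw [hM] at r1 r2
  have e1 : E1 = μ * E0 := by
    have : E1 * D = μ * E0 * D := by linarith
    exact mul_right_cancel₀ hDp.ne' this
  have hE0p : 0 ≤ E0 := by rw [hE0]; exact sum_nonneg fun k _ => hq k
  have hE1p : 0 ≤ E1 := by rw [e1]; positivity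
  have e2 : E2 ≤ μ * E1 + E1 := by
    have : E2 * D ≤ (μ * E1 + E1) * D := by linarith
    exact le_of_mul_le_mul_right this hDp
  have h2 : ∑ k ∈ range (M + 1), q k * ((k : ℝ) - μ) ^ 2 =
      E2 - 2 * μ * E1 + μ ^ 2 * E0 := by
    rw [hE2, hE1, hE0, mul_sum, mul_sum, ← sum_sub_distrib, ← sum_add_distrib]
    exact sum_congr rfl fun k _ => by ring
  rw [h2, ← hE0, e1]
  rw [e1] at e2
  nlinarith

/-- the variance -/
theorem second_moment (hW : Sys W s) {μ : ℕ} (hμ : Fintype.card J = μ * 2 ^ s) :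
    ∑ z : I → Bool, (((win W z).card : ℝ) - μ) ^ 2 ≤ μ * tot I := by
  have t0 : ∑ k ∈ range (Fintype.card J + 1), ((lev W k).card : ℝ) = tot I := by
    have := sum_fun (W := W) (fun _ => 1)
    simp only [mul_one, sum_const, card_univ, nsmul_eq_mul] at this
    rw [← this]
    rfl
  have h1 := sum_fun (W := W) (fun k => ((k : ℝ) - μ) ^ 2)
  rw [h1, ← t0]
  refine var_rec (fun k => ((lev W k).card : ℝ)) (Fintype.card J) μ (2 ^ s)
    (one_le_pow₀ (by norm_num)) (by exact_mod_cast hμ) (Nat.cast_nonneg _)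
    (fun k => Nat.cast_nonneg _) (fun k hk => rec_real hW (by rw [mem_range] at hk; omega)) ?_
  rw [lev_empty (by omega), card_empty, Nat.cast_zero]

/-- Chebyshev's inequality -/
theorem out_card (hW : Sys W s) {μ : ℕ} (hμ : Fintype.card J = μ * 2 ^ s) (b r : ℕ)
    (hb : b + r = μ) (S : Finset (I → Bool))
    (hS : ∀ z ∈ S, (win W z).card < b ∨ b + 2 * r ≤ (win W z).card) :
    (S.card : ℝ) * r ^ 2 ≤ μ * tot I := by
  refine le_trans ?_ (second_moment hW hμ)
  rw [← nsmul_eq_mul]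
  refine (card_nsmul_le_sum S (fun z => (((win W z).card : ℝ) - μ) ^ 2) _ fun z hz => ?_).trans
    (sum_le_sum_of_subset_of_nonneg (subset_univ _) fun z _ _ => sq_nonneg _)
  have hμr : (μ : ℝ) = b + r := by rw [← hb]; push_cast; ring
  rcases hS z hz with h | h
  · have h1 : ((win W z).card : ℝ) ≤ b := by exact_mod_cast h.le
    have h2 : (r : ℝ) ≤ μ - (win W z).card := by rw [hμr]; linarith
    have h3 : (0 : ℝ) ≤ r := Nat.cast_nonneg _
    nlinarith
  · have h1 : (b : ℝ) + 2 * r ≤ (win W z).card := by exact_mod_cast h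
    have h2 : (r : ℝ) ≤ (win W z).card - μ := by rw [hμr]; linarith
    have h3 : (0 : ℝ) ≤ r := Nat.cast_nonneg _
    nlinarith

/-- flatness, from the recurrence -/
theorem flat_rec (q : ℕ → ℝ) (M μ t : ℕ) (D a Z : ℝ) (hD : 1 ≤ D) (hM : (M : ℝ) = μ * D)
    (hq : ∀ k, 0 ≤ q k)
    (hr : ∀ k ≤ M, q k * ((M : ℝ) - k) = q (k + 1) * ((k + 1) * (D - 1)))
    (hz : ∀ k, M < k → q k = 0) (htμ : t ≤ μ) (hμ : 0 < μ)
    (ha : a * (μ * D) = t * D + 2 * μ) (hta : t * a ≤ 1 / 2) (ha1 : a ≤ 1)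
    (hZ : ∀ S : Finset ℕ, ∑ k ∈ S, q k ≤ Z) (k : ℕ) : q k * (t + 1) ≤ 2 * Z := by
  have hZ0 : 0 ≤ Z := by simpa using hZ ∅
  have hDp : 0 < D := by linarith
  have hμp : (0 : ℝ) < μ := by exact_mod_cast hμ
  have ha0 : 0 ≤ a := by
    by_contra hneg
    push Not at hneg
    have h1 : a * (μ * D) < 0 := mul_neg_of_neg_of_pos hneg (by positivity)
    have h2 : 0 ≤ (t : ℝ) * D + 2 * μ := by positivity
    linarith
  have hb : ∀ l ≤ t, (1 : ℝ) / 2 ≤ (1 - a) ^ l := by
    intro l hl
    have h1 := one_add_mul_le_pow (a := -a) (by linarith) l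
    have h2 : (l : ℝ) * a ≤ t * a := mul_le_mul_of_nonneg_right (by exact_mod_cast hl) ha0
    have h3 : (1 : ℝ) + -a = 1 - a := by ring
    rw [h3] at h1
    linarith
  rcases Nat.lt_or_ge M k with hkM | hkM
  · rw [hz k hkM]
    linarith
  rcases Nat.lt_or_ge k μ with hk | hk
  · have key : ∀ l ≤ t, q k * (1 - a) ^ l ≤ q (k + l) := by
      intro l
      induction l with
      | zero => intro _; simp
      | succ l ih =>
        intro hl
        have h1 := ih (by omega)
        have htr : (t : ℝ) ≤ μ := by exact_mod_cast htμ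
        have hkl : ((k + l : ℕ) : ℝ) + 1 ≤ μ + t := by
          have : k + l + 1 ≤ μ + t := by omega
          exact_mod_cast this
        rcases Nat.lt_or_ge M (k + l) with h2 | h2
        · rw [hz _ h2] at h1
          rw [pow_succ, ← mul_assoc]
          exact (mul_nonpos_of_nonpos_of_nonneg h1 (by linarith)).trans (hq _)
        · have h3 := hr (k + l) h2
          have h4 : (1 - a) * ((μ + t) * D) ≤ (M : ℝ) - (k + l : ℕ) := by
            have e1 : (1 - a) * ((μ + t) * D) = (μ + t) * D - a * (μ * D) - a * (t * D) := by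
              ring
            have e2 : 0 ≤ a * (t * D) := by positivity
            rw [e1, ha, hM]
            linarith
          have h5 : ((k + l : ℕ) + 1 : ℝ) * (D - 1) ≤ (μ + t) * D :=
            mul_le_mul hkl (by linarith) (by linarith) (by positivity)
          have h6 : q (k + l) * (1 - a) * ((μ + t) * D) ≤ q (k + (l + 1)) * ((μ + t) * D) := by
            calc q (k + l) * (1 - a) * ((μ + t) * D) =
                  q (k + l) * ((1 - a) * ((μ + t) * D)) := by ring
              _ ≤ q (k + l) * ((M : ℝ) - (k + l : ℕ)) := mul_le_mul_of_nonneg_left h4 (hq _)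
              _ = q (k + l + 1) * (((k + l : ℕ) + 1) * (D - 1)) := h3
              _ ≤ _ := mul_le_mul_of_nonneg_left h5 (hq _)
          have h7 := le_of_mul_le_mul_right h6 (by positivity)
          rw [pow_succ, ← mul_assoc]
          exact (mul_le_mul_of_nonneg_right h1 (by linarith)).trans h7
    have h1 := hZ ((range (t + 1)).image fun l => k + l)
    rw [sum_image (fun x _ y _ h => by simpa using h)] at h1
    have h2 : ∑ l ∈ range (t + 1), q k * (1 / 2) ≤ ∑ l ∈ range (t + 1), q (k + l) :=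
      sum_le_sum fun l hl => by
        rw [mem_range] at hl
        exact (mul_le_mul_of_nonneg_left (hb l (by omega)) (hq k)).trans (key l (by omega))
    rw [sum_const, card_range, nsmul_eq_mul] at h2
    push_cast at h2
    linarith
  · have key : ∀ l ≤ t, q k * (1 - a) ^ l ≤ q (k - l) := by
      intro l
      induction l with
      | zero => intro _; simp
      | succ l ih =>
        intro hl
        have h1 := ih (by omega)
        have h3 := hr (k - (l + 1)) (by omega)
        have e0 : k - (l + 1) + 1 = k - l := by omega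
        rw [e0] at h3
        have hkl : (μ : ℝ) - t ≤ ((k - (l + 1) : ℕ) : ℝ) + 1 := by
          have : μ ≤ k - (l + 1) + 1 + t := by omega
          have h : (μ : ℝ) ≤ ((k - (l + 1) : ℕ) : ℝ) + 1 + t := by exact_mod_cast this
          linarith
        have htr : (t : ℝ) ≤ μ := by exact_mod_cast htμ
        have h4 : (1 - a) * (μ * D) ≤ (((k - (l + 1) : ℕ) : ℝ) + 1) * (D - 1) := by
          have e1 : (1 - a) * (μ * D) = μ * D - a * (μ * D) := by ring
          have e2 : ((μ : ℝ) - t) * (D - 1) ≤ (((k - (l + 1) : ℕ) : ℝ) + 1) * (D - 1) :=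
            mul_le_mul_of_nonneg_right hkl (by linarith)
          have e3 : (0 : ℝ) ≤ t := Nat.cast_nonneg _
          rw [e1, ha]
          nlinarith
        have h5 : (M : ℝ) - ((k - (l + 1) : ℕ) : ℝ) ≤ μ * D := by
          rw [hM]
          have : (0 : ℝ) ≤ ((k - (l + 1) : ℕ) : ℝ) := Nat.cast_nonneg _
          linarith
        have h6 : q (k - l) * (1 - a) * (μ * D) ≤ q (k - (l + 1)) * (μ * D) := by
          calc q (k - l) * (1 - a) * (μ * D) = q (k - l) * ((1 - a) * (μ * D)) := by ring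
            _ ≤ q (k - l) * ((((k - (l + 1) : ℕ) : ℝ) + 1) * (D - 1)) :=
                mul_le_mul_of_nonneg_left h4 (hq _)
            _ = q (k - (l + 1)) * ((M : ℝ) - ((k - (l + 1) : ℕ) : ℝ)) := h3.symm
            _ ≤ _ := mul_le_mul_of_nonneg_left h5 (hq _)
        have h7 := le_of_mul_le_mul_right h6 (by positivity)
        rw [pow_succ, ← mul_assoc]
        exact (mul_le_mul_of_nonneg_right h1 (by linarith)).trans h7
    have h1 := hZ ((range (t + 1)).image fun l => k - l)
    rw [sum_image (fun x hx y hy h => by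
      rw [mem_coe, mem_range] at hx hy
      omega)] at h1
    have h2 : ∑ l ∈ range (t + 1), q k * (1 / 2) ≤ ∑ l ∈ range (t + 1), q (k - l) :=
      sum_le_sum fun l hl => by
        rw [mem_range] at hl
        exact (mul_le_mul_of_nonneg_left (hb l (by omega)) (hq k)).trans (key l (by omega))
    rw [sum_const, card_range, nsmul_eq_mul] at h2
    push_cast at h2
    linarith

/-- the distribution is flat -/
theorem flat (hW : Sys W s) {h : ℕ} (hh : 1 ≤ h) (hs : h + 2 ≤ s)
    (hμ : Fintype.card J = 2 ^ (2 * h) * 2 ^ s) (k : ℕ) :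
    ((lev W k).card : ℝ) ≤ 4 / 2 ^ h * tot I := by
  have hμ' : (Fintype.card J : ℝ) = ((2 ^ (2 * h) : ℕ) : ℝ) * 2 ^ s := by exact_mod_cast hμ
  have htr : ((2 ^ (h - 1) : ℕ) : ℝ) * 2 = 2 ^ h := by
    push_cast
    rw [← pow_succ]
    congr 1
    omega
  have hD4 : (4 : ℝ) * 2 ^ h ≤ 2 ^ s := by
    calc (4 : ℝ) * 2 ^ h = 2 ^ (h + 2) := by rw [pow_add]; norm_num; ring
      _ ≤ _ := pow_le_pow_right₀ (by norm_num) hs
  have hμ2 : ((2 ^ (2 * h) : ℕ) : ℝ) = 2 ^ h * 2 ^ h := by
    push_cast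
    rw [two_mul, pow_add]
  obtain ⟨t, ht⟩ : ∃ t : ℕ, t = 2 ^ (h - 1) := ⟨_, rfl⟩
  obtain ⟨μ, hμd⟩ : ∃ μ : ℕ, μ = 2 ^ (2 * h) := ⟨_, rfl⟩
  obtain ⟨D, hDd⟩ : ∃ D : ℝ, D = 2 ^ s := ⟨_, rfl⟩
  obtain ⟨x, hx⟩ : ∃ x : ℝ, x = 2 ^ h := ⟨_, rfl⟩
  rw [← ht, ← hx] at htr
  rw [← hDd, ← hx] at hD4
  rw [← hμd, ← hx] at hμ2
  rw [← hDd, ← hμd] at hμ'
  have hx2 : (2 : ℝ) ≤ x := by
    rw [hx]
    calc (2 : ℝ) = 2 ^ 1 := by norm_num
      _ ≤ _ := pow_le_pow_right₀ (by norm_num) hh
  have hDp : 0 < D := by linarith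
  have hμ0 : 0 < μ := by rw [hμd]; positivity
  have hμp : (0 : ℝ) < μ := by exact_mod_cast hμ0
  have hta : (t : ℝ) * (t / μ + 2 / D) ≤ 1 / 2 := by
    rw [mul_add]
    have h1 : (t : ℝ) * (t / μ) = 1 / 4 := by
      rw [hμ2, ← htr]
      have : (t : ℝ) ≠ 0 := by
        intro h0
        rw [h0] at htr
        linarith
      field_simp
      norm_num
    have h2 : (t : ℝ) * (2 / D) ≤ 1 / 4 := by
      rw [mul_div_assoc', div_le_iff₀ hDp, htr]
      linarith
    linarith
  have h1 := flat_rec (fun k => ((lev W k).card : ℝ)) (Fintype.card J) μ t D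
    (t / μ + 2 / D) (tot I) (by linarith) hμ' (fun k => Nat.cast_nonneg _)
    (fun k hk => by rw [hDd]; exact rec_real hW hk)
    (fun k hk => by rw [lev_empty hk, card_empty, Nat.cast_zero])
    (by
      rw [ht, hμd]
      exact Nat.pow_le_pow_right (by norm_num) (by omega)) hμ0
    (by field_simp) hta (by
      have h1 : (1 : ℝ) ≤ t := by
        rw [ht]
        exact_mod_cast Nat.one_le_two_pow
      have h2 : 0 ≤ (t : ℝ) / μ + 2 / D := by positivity
      nlinarith) (fun S => sum_lev_le S) k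
  rw [← hx, div_mul_eq_mul_div, le_div_iff₀ (by linarith)]
  have h2 : (0 : ℝ) ≤ ((lev W k).card : ℝ) := Nat.cast_nonneg _
  nlinarith

end Pool.Agent.TH93.CA
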