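import Pool.Agent.TH93.CA.Cen
import Pool.Agent.TH93.GL.Up

/-!
# The complement with the number of the members as advice: the theorem
-/

set_option autoImplicit false

namespace Pool.Agent.TH93.CA

open Pool.Agent.NPC Pool.Agent.H620R2.Gauge Pool.Agent.H622R2.Exp
open Pool.Agent.TH93.GL (bits_top)

theorem str_length {a C : ℕ} (hC : C + 1 < 2 ^ (a + 1)) : (str C).length ≤ a := by
  have h1 := le_idx (str C)
  rw [idx_str] at h1
  have h2 : 2 ^ (str C).length < 2 ^ (a + 1) := by omega
  have h3 := (Nat.pow_lt_pow_iff_right (by norm_num : 1 < 2)).1 h2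
  omega

/-- **The census.** If `L` has at most `s n` members of length `n` then the complement can be
accepted with `log s` bits of advice. -/
theorem census_up {A : Oracle} {a b s β : ℕ → ℕ} (ha : ∀ n, s n + 1 < 2 ^ (a n + 1))
    {L : Set (List Bool)} (hs : ∀ n, Set.ncard {y : List Bool | y ∈ L ∧ y.length = n} ≤ s n)
    (hb : ∀ n, s n * (4 * n + 4 * β n + 4) + 1 ≤ b n)
    (hβ : Poly (fun x : List Bool => β x.length)) {V : List Bool → List Bool}
    (hV : IsFP A V) (hL : ∀ x : List Bool, x ∈ L ↔ ∃ w : List Bool,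
      w.length ≤ β x.length ∧ V (pairBits w x) = [true]) : InNTAdv b a A Lᶜ := by
  classical
  have hfin : ∀ n : ℕ, {y : List Bool | y ∈ L ∧ y.length = n}.Finite := fun n =>
    (List.finite_length_eq Bool n).subset fun y hy => hy.2
  have hFP := IsFP.votes hV (Polynomial.X) (Q := fun _ => []) (NPC.Poly.const _) poly_WN
    (poly_HN hβ)
  refine ⟨_, fun n => str (Set.ncard {y : List Bool | y ∈ L ∧ y.length = n}), hFP,
    fun n => str_length ((Nat.add_le_add_right (hs n) 1).trans_lt (ha n)), fun x => ?_⟩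
  have key := fun w : List Bool => HN_iff β V w
    (str (Set.ncard {y : List Bool | y ∈ L ∧ y.length = x.length})) x
  simp only [List.map_nil]
  simp only [key, idx_str]
  rw [Set.mem_compl_iff]
  set F := (hfin x.length).toFinset with hF
  have hFc : F.card = Set.ncard {y : List Bool | y ∈ L ∧ y.length = x.length} := by
    rw [Set.ncard_eq_toFinset_card _ (hfin x.length)]
  have hFm : ∀ y, y ∈ F ↔ y ∈ L ∧ y.length = x.length := by
    intro y
    rw [hF, Set.Finite.mem_toFinset]
    rfl
  constructor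
  · intro hx
    have h1 : ∀ y : List Bool, ∃ w : List Bool, y ∈ F →
        w.length ≤ β x.length ∧ V (pairBits w y) = [true] := by
      intro y
      by_cases hy : y ∈ F
      · obtain ⟨hyL, hyn⟩ := (hFm y).1 hy
        obtain ⟨w, hw⟩ := (hL y).1 hyL
        rw [hyn] at hw
        exact ⟨w, fun _ => hw⟩
      · exact ⟨[], fun h => absurd h hy⟩
    choose wt hwt using h1
    refine ⟨bits (F.toList.map fun y => (y, wt y)), ?_, ?_⟩
    · rw [bits_length]
      have h2 := sz_le_length_mul (F.toList.map fun y => (y, wt y))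
        (4 * x.length + 4 * β x.length + 3) (by
          intro p hp
          obtain ⟨y, hy, rfl⟩ := List.mem_map.1 hp
          rw [Finset.mem_toList] at hy
          have h3 := (hFm y).1 hy
          have h4 := (hwt y hy).1
          have h5 := sz_listBool_le y
          have h6 := sz_listBool_le (wt y)
          rw [sz_pair]
          omega)
      rw [List.length_map, Finset.length_toList, hFc] at h2
      refine le_trans ?_ (hb x.length)
      refine h2.trans ?_
      have h3 := hs x.length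
      gcongr
    · rw [ls2_bits]
      refine ⟨fun p hp => ?_, ?_, ?_, fun p hp => ?_⟩
      · obtain ⟨y, hy, rfl⟩ := List.mem_map.1 hp
        rw [Finset.mem_toList] at hy
        have h3 := (hFm y).1 hy
        refine ⟨h3.2, ?_, (hwt y hy).1⟩
        rintro rfl
        exact hx h3.1
      · rw [List.map_map]
        have : (Prod.fst ∘ fun y : List Bool => (y, wt y)) = id := rfl
        rw [this, List.map_id]
        exact Finset.nodup_toList _
      · rw [List.length_map, Finset.length_toList, hFc]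
      · obtain ⟨y, hy, rfl⟩ := List.mem_map.1 hp
        rw [Finset.mem_toList] at hy
        exact (hwt y hy).2
  · rintro ⟨w, _, h1, h2, h3, h4⟩ hx
    have h5 : insert x ((ls2 w).map Prod.fst).toFinset ⊆ F := by
      intro y hy
      rw [Finset.mem_insert, List.mem_toFinset, List.mem_map] at hy
      rw [hFm]
      rcases hy with rfl | ⟨p, hp, rfl⟩
      · exact ⟨hx, rfl⟩
      · have h6 := h1 p hp
        refine ⟨(hL _).2 ⟨p.2, ?_, h4 p hp⟩, h6.1⟩
        rw [h6.1]
        exact h6.2.2
    have h6 := Finset.card_le_card h5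
    rw [Finset.card_insert_of_notMem, List.toFinset_card_of_nodup h2, List.length_map, h3,
      hFc] at h6
    · omega
    · rw [List.mem_toFinset, List.mem_map]
      rintro ⟨p, hp, he⟩
      exact (h1 p hp).2.1 he

theorem ncard_len (L : Set (List Bool)) (n : ℕ) :
    Set.ncard {y : List Bool | y ∈ L ∧ y.length = n} ≤ 2 ^ n := by
  have h1 : Set.ncard {y : List Bool | y ∈ L ∧ y.length = n} ≤
      Set.ncard ((Finset.range (2 ^ n) : Finset ℕ) : Set ℕ) := by
    apply Set.ncard_le_ncard_of_injOn valB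
    · rintro y ⟨_, hy⟩
      rw [Finset.mem_coe, Finset.mem_range, ← hy]
      exact valB_lt y
    · rintro y ⟨_, hy⟩ y' ⟨_, hy'⟩ he
      have h2 := bits_top y
      have h3 := bits_top y'
      rw [he, hy, ← hy', h3] at h2
      exact (List.append_cancel_right h2).symm
  rw [Set.ncard_coe_finset, Finset.card_range] at h1
  exact h1

/-- With `n` bits of advice the complement can be accepted. -/
theorem census_exp {A : Oracle} {a b : ℕ → ℕ} (ha : ∀ n, max n 1 ≤ a n) {L : Set (List Bool)}
    {q : Polynomial ℕ} (hb : ∀ n, 2 ^ (q.eval n + 2 * n + 8) ≤ b n) {V : List Bool → List Bool}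
    (hV : IsFP A V) (hL : ∀ x : List Bool, x ∈ L ↔ ∃ w : List Bool,
      w.length ≤ 2 ^ q.eval x.length ∧ V (pairBits w x) = [true]) : InNTAdv b a A Lᶜ := by
  refine census_up (s := fun n => 2 ^ n) (β := fun n => 2 ^ q.eval n) (fun n => ?_)
    (ncard_len L) (fun n => ?_) (A4.poly_two_pow ((UPoly.length Poly.id).eval q)) hV hL
  · have h3 : 2 ^ n ≤ 2 ^ max n 1 := Nat.pow_le_pow_right (by norm_num) (le_max_left _ _)
    have h4 : 2 ^ 1 ≤ 2 ^ max n 1 := Nat.pow_le_pow_right (by norm_num) (le_max_right _ _)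
    have h5 : 2 ^ (max n 1 + 1) ≤ 2 ^ (a n + 1) :=
      Nat.pow_le_pow_right (by norm_num) (Nat.add_le_add_right (ha n) 1)
    have h6 : 2 ^ (max n 1 + 1) = 2 ^ max n 1 + 2 ^ max n 1 := by rw [pow_succ]; ring
    omega
  · refine le_trans ?_ (hb n)
    have h4 : n < 2 ^ n := Nat.lt_two_pow_self
    have h5 : 2 ^ (q.eval n + 2 * n + 8) = 256 * (2 ^ q.eval n * (2 ^ n * 2 ^ n)) := by
      rw [pow_add, pow_add, two_mul, pow_add]
      norm_num
      ring
    rw [h5]
    obtain ⟨t, ht⟩ : ∃ t, t = 2 ^ n := ⟨_, rfl⟩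
    obtain ⟨r, hr⟩ : ∃ r, r = 2 ^ q.eval n := ⟨_, rfl⟩
    rw [← ht] at h4 ⊢
    rw [← hr]
    have ht1 : 1 ≤ t := by omega
    have hr1 : 1 ≤ r := by rw [hr]; exact Nat.one_le_two_pow
    have h6 : 4 * n + 4 * r + 4 ≤ 12 * (r * t) := by nlinarith
    calc _ ≤ t * (12 * (r * t)) + 1 := by gcongr
      _ = 12 * (r * (t * t)) + 1 := by ring
      _ ≤ 256 * (r * (t * t)) := by
          have : 1 ≤ r * (t * t) := Nat.mul_pos hr1 (Nat.mul_pos ht1 ht1)
          omega

/-- the upper bound for `NE` -/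
theorem census_lin {A : Oracle} {a : ℕ → ℕ} (ha : ∀ n, max n 1 ≤ a n) {L : Set (List Bool)}
    (hL : InNTime Lin A L) : ∃ c : ℕ, InNTAdv (fun n => 2 ^ (c * (n + 1))) a A Lᶜ := by
  obtain ⟨V, hV, q, ⟨c, rfl⟩, hL⟩ := hL
  refine ⟨c + 8, census_exp ha (fun n => ?_) hV hL⟩
  apply Nat.pow_le_pow_right (by norm_num)
  rw [Polynomial.eval_mul, Polynomial.eval_C, Polynomial.eval_add, Polynomial.eval_X,
    Polynomial.eval_one]
  nlinarith

/-- the upper bound for sparse sets in `NP` -/
theorem census_np {A : Oracle} {a : ℕ → ℕ} {s : Polynomial ℕ}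
    (ha : ∀ n, s.eval n + 1 < 2 ^ (a n + 1)) {L : Set (List Bool)}
    (hs : ∀ n, Set.ncard {y : List Bool | y ∈ L ∧ y.length = n} ≤ s.eval n) (hL : IsNP A L) :
    ∃ p : Polynomial ℕ, InNTAdv (fun n => p.eval n) a A Lᶜ := by
  obtain ⟨V, q, hV, hL⟩ := hL
  refine ⟨s * (4 * Polynomial.X + 4 * q + 4) + 1, census_up (s := fun n => s.eval n)
    (β := fun n => q.eval n) ha hs (fun n => ?_) ((UPoly.length Poly.id).eval q).toPoly hV hL⟩
  simp only [Polynomial.eval_mul, Polynomial.eval_add, Polynomial.eval_X, Polynomial.eval_ofNat,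
    Polynomial.eval_one]
  exact le_rfl

/-- the upper bound for `NEXP` -/
theorem census_pol {A : Oracle} {a : ℕ → ℕ} (ha : ∀ n, max n 1 ≤ a n) {L : Set (List Bool)}
    (hL : InNTime Pol A L) : ∃ p : Polynomial ℕ, InNTAdv (fun n => 2 ^ p.eval n) a A Lᶜ := by
  obtain ⟨V, hV, q, _, hL⟩ := hL
  refine ⟨q + 2 * Polynomial.X + 8, census_exp ha (fun n => ?_) hV hL⟩
  apply Nat.pow_le_pow_right (by norm_num)
  simp only [Polynomial.eval_mul, Polynomial.eval_add, Polynomial.eval_X, Polynomial.eval_ofNat]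
  exact le_rfl

end Pool.Agent.TH93.CA
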