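import Pool.Agent.TH93.CA.Stage
import Pool.Agent.TH93.CA.Up

/-!
# The complement of the test language is hard relative to almost all oracles
-/

set_option autoImplicit false

namespace Pool.Agent.TH93.CA

open Pool.Agent.NPC Pool.Agent.H620R2.Gauge Pool.Agent.TH678.ETH Pool.Agent.H622R2.Exp
open MeasureTheory Filter
open Pool.Agent.TH93.GL (poly_log)
open Pool.Agent.TH683.AT (poly_small)

/-- Borel-Cantelli -/
theorem ae_not {E : ℕ → Set Oracle} {C : ℝ}
    (hE : ∀ᶠ n : ℕ in atTop, ranO (E n) ≤ ENNReal.ofReal (C / ((n : ℝ) ^ 2))) :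
    ∀ᵐ A ∂ranO, ∀ᶠ n : ℕ in atTop, A ∉ E n := by
  obtain ⟨n₀, hn₀⟩ := eventually_atTop.1 hE
  have hsum : ∑' m : ℕ, ranO (E (n₀ + m)) ≠ ⊤ := by
    have h2 : Summable fun m : ℕ => C / (((n₀ + m : ℕ) : ℝ) ^ 2) := by
      have h3 : Summable fun m : ℕ => C / ((m : ℝ) ^ 2) := by
        have := (Real.summable_one_div_nat_pow (p := 2)).2 (by norm_num)
        exact (this.mul_left C).congr fun m => by ring
      have h4 := (summable_nat_add_iff n₀).2 h3
      exact h4.congr fun m => by rw [add_comm]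
    have h3 := h2.tsum_ofReal_ne_top
    refine ne_top_of_le_ne_top h3 (ENNReal.tsum_le_tsum fun m => ?_)
    exact hn₀ (n₀ + m) (by omega)
  have h2 := ae_eventually_notMem hsum
  filter_upwards [h2] with A hA
  obtain ⟨n₁, hn₁⟩ := eventually_atTop.1 hA
  rw [eventually_atTop]
  refine ⟨n₀ + n₁, fun n hn => ?_⟩
  have := hn₁ (n - n₀) (by omega)
  rwa [Nat.add_sub_cancel' (by omega)] at this

theorem size_ok {b : ℕ → ℕ} (hb : ∀ k : ℕ, ∀ᶠ n : ℕ in atTop, b n ^ k ≤ 2 ^ 2 ^ n) (c : ℕ) :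
    ∀ᶠ n : ℕ in atTop, n + 1 + c * (Nat.log 2 (max (b n) n) + 1) + 1 + 1 ≤ 2 ^ n := by
  obtain ⟨n₀, hn₀⟩ := poly_small (Polynomial.C (2 * c + 2) * (Polynomial.X + 3))
  filter_upwards [hb (2 * c), eventually_ge_atTop n₀] with n h1 h2
  have h3 := hn₀ n h2
  simp only [Polynomial.eval_mul, Polynomial.eval_C, Polynomial.eval_add, Polynomial.eval_X,
    Polynomial.eval_ofNat] at h3
  have h4 : 2 * c * Nat.log 2 (b n) ≤ 2 ^ n := by
    rcases Nat.eq_zero_or_pos (b n) with h0 | h0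
    · rw [h0]; simp
    · have h5 : 2 ^ (Nat.log 2 (b n) * (2 * c)) ≤ 2 ^ 2 ^ n := by
        rw [pow_mul]
        exact (Nat.pow_le_pow_left (Nat.pow_log_le_self 2 (by omega)) _).trans h1
      have h6 := (Nat.pow_le_pow_iff_right (by norm_num)).1 h5
      rwa [mul_comm] at h6
  have h5 : Nat.log 2 (max (b n) n) ≤ Nat.log 2 (b n) + n := by
    rcases le_total (b n) n with h | h
    · rw [max_eq_right h]
      exact (Nat.log_le_self 2 n).trans (Nat.le_add_left _ _)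
    · rw [max_eq_left h]
      exact Nat.le_add_right _ _
  have h6 : c * (Nat.log 2 (max (b n) n) + 1) ≤ c * Nat.log 2 (b n) + c * (n + 1) := by
    rw [← mul_add]
    exact Nat.mul_le_mul_left _ (by omega)
  nlinarith

/-- one algorithm and one bound for the certificates -/
theorem ae_one (M : Alg) {b : ℕ → ℕ} (hb : ∀ k : ℕ, ∀ᶠ n : ℕ in atTop, b n ^ k ≤ 2 ^ 2 ^ n) :
    ∀ᵐ A ∂ranO, ∀ᶠ n : ℕ in atTop, A ∉ EvS M (2 ^ n) n (b n) (bitsOf n) := by
  obtain ⟨c, hc⟩ := poly_log (M.p.comp (5 * Polynomial.X + 2))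
  obtain ⟨n₀, hn₀⟩ := poly_small (3 * Polynomial.X + 4)
  refine ae_not (C := 20) ?_
  filter_upwards [size_ok hb c, eventually_ge_atTop 4, eventually_ge_atTop n₀] with n h1 h2 h3
  have h4 := hn₀ n h3
  simp only [Polynomial.eval_mul, Polynomial.eval_add, Polynomial.eval_X,
    Polynomial.eval_ofNat] at h4
  refine ev_stage M (Λ := n) (T := 2 ^ (c * (Nat.log 2 (max (b n) n) + 1)))
    (fun v => (length_bitsOf n v).le) ?_ h2 h4 ?_
  · refine le_trans ?_ (hc (max (b n) n))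
    rw [Polynomial.eval_comp]
    simp only [Polynomial.eval_add, Polynomial.eval_mul, Polynomial.eval_ofNat, Polynomial.eval_X]
    have h5 := le_max_left (b n) n
    have h6 := le_max_right (b n) n
    exact eval_mono _ (by omega)
  · rw [Nat.log_pow (by norm_num)]
    exact h1

/-- Relative to almost every oracle the complement of the test language is hard. -/
theorem ae_hard {S : Set (ℕ → ℕ)} (hS : S.Countable)
    (hb : ∀ b ∈ S, ∀ k : ℕ, ∀ᶠ n : ℕ in atTop, b n ^ k ≤ 2 ^ 2 ^ n) :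
    ∀ᵐ A ∂ranO, ∀ b ∈ S, ∀ a : ℕ → ℕ, InNTAdv b a A (CL A)ᶜ →
      ∀ᶠ n : ℕ in atTop, n < a n + 3 * (Nat.log 2 n + 1) := by
  have h1 : ∀ᵐ A ∂ranO, ∀ b ∈ S, ∀ M : Alg, ∀ᶠ n : ℕ in atTop,
      A ∉ EvS M (2 ^ n) n (b n) (bitsOf n) :=
    (ae_ball_iff hS).2 fun b hbS => ae_all_iff.2 fun M => ae_one M (hb b hbS)
  filter_upwards [h1] with A hA b hbS a ⟨V, α, ⟨M, hM⟩, hα, hx⟩
  filter_upwards [hA b hbS M, eventually_ge_atTop 1] with n hn hn1
  by_contra hcon
  push Not at hcon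
  have hsz := size_eq hn1
  refine hn ⟨α n, ?_, fun v hv => ?_⟩
  · have := hα n
    omega
  · have h2 := hx (bitsOf n v)
    have h3 : (bitsOf n v ∈ (CL A)ᶜ) ↔ wins A (2 ^ n) n ≤ thr n + v := by
      unfold CL
      rw [Set.mem_compl_iff, Set.mem_ofPred_eq, length_bitsOf, valB_bitsOf n v hv, not_lt]
    rw [← h3, h2, length_bitsOf]
    refine exists_congr fun w => and_congr_right fun _ => ?_
    rw [hM, Option.some.injEq]

end Pool.Agent.TH93.CA
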