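import Pool.Agent.TH93.CA.Defs
import Pool.Agent.H622R2.Exp.A4
import Pool.Agent.H620R2.Gauge2.V7
import Pool.Agent.H620R2.GaugeR.R2

/-!
# The test language is in `NE`
-/

set_option autoImplicit false

namespace Pool.Agent.TH93.CA

open Pool.Agent.NPC Pool.Agent.H620R2.Gauge Pool.Agent.H622R2.Exp

/-- decoding of a list of strings -/
def lst (w : List Bool) : List (List Bool) := (unbits (List (List Bool)) w).getD []

theorem lst_bits (l : List (List Bool)) : lst (bits l) = l := by
  unfold lst
  rw [unbits_bits]
  rfl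

theorem poly_lst : Poly lst :=
  (Poly.optCases (o := unbits (List (List Bool))) (g := fun _ => ([] : List (List Bool)))
    (h := fun _ b => b) poly_unbits (NPC.Poly.const _) (Poly.snd Poly.id)).congr fun s => by
      unfold lst
      cases unbits (List (List Bool)) s <;> rfl

theorem poly_size {α : Type} [TEnc α] {n : α → ℕ} (hn : Poly n) : Poly (fun a => (n a).size) :=
  (Poly.length (Poly.natBits hn)).congr fun a => Nat.size_eq_bits_len _

/-- the length of the input -/
abbrev ln (z : List Bool) : ℕ := (unpair z).2.length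

theorem upoly_ln : UPoly ln := UPoly.length (Poly.snd poly_unpair)

theorem poly_ln : Poly ln := upoly_ln.toPoly

/-- twice the exponent -/
def ex (r : ℕ) : ℕ := 2 * (r - r.size)

theorem upoly_ex {α : Type} [TEnc α] {n : α → ℕ} (hn : UPoly n) : UPoly (fun a => ex (n a)) := by
  refine UPoly.of_le (n := fun a => 2 * n a) ?_ ((UPoly.const 2).mul hn) fun a => by
    unfold ex
    omega
  unfold ex
  exact Poly.mul (NPC.Poly.const 2) (Poly.sub hn.toPoly (poly_size hn.toPoly))

theorem poly_thr {α : Type} [TEnc α] {n : α → ℕ} (hn : UPoly n) : Poly (fun a => thr (n a)) := by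
  unfold thr
  refine Poly.sub (A4.poly_two_pow (upoly_ex hn)) (A4.poly_two_pow ?_)
  exact UPoly.of_le (Poly.sub hn.toPoly (NPC.Poly.const 1)) hn fun a => Nat.sub_le _ _

/-- the general test language: the window is given by `ρ`, the length of the cells by `μ` -/
def CG (ρ μ : ℕ → ℕ) (P : List Bool → Bool) (A : Oracle) : Set (List Bool) :=
  {x | P x = true ∧ thr (ρ x.length) + valB x < wins A (μ x.length) (ρ x.length)}

section Gen

variable (ρ μ : ℕ → ℕ) (P : List Bool → Bool)

/-- the questions -/
def QC (z : List Bool) : List (List Bool) :=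
  (lst (unpair z).1).flatMap fun u =>
    (List.range (u.length - ex (ρ (ln z)))).map fun i => u ++ List.replicate (min i u.length) true

variable {ρ} in
theorem poly_QC (hρ : UPoly (fun x : List Bool => ρ x.length)) : Poly (QC ρ) := by
  have h1 : Poly (fun z : List Bool => lst (unpair z).1) := poly_lst.comp (Poly.fst poly_unpair)
  unfold QC
  refine Poly.flatMap (F := fun (z : List Bool) (u : List Bool) =>
    (List.range (u.length - ex (ρ (ln z)))).map fun i =>
      u ++ List.replicate (min i u.length) true) h1 ?_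
  have hu : Poly (fun p : List Bool × List Bool => p.2) := Poly.snd Poly.id
  have hex : UPoly (fun p : List Bool × List Bool => ex (ρ (ln p.1))) :=
    upoly_ex (hρ.comp (Poly.snd (poly_unpair.comp (Poly.fst Poly.id))))
  have hr : UPoly (fun p : List Bool × List Bool => p.2.length - ex (ρ (ln p.1))) :=
    UPoly.of_le (Poly.sub (Poly.length hu) hex.toPoly) (UPoly.length hu) fun p => Nat.sub_le _ _
  refine NPC.Poly.map (F := fun (p : List Bool × List Bool) (i : ℕ) =>
    p.2 ++ List.replicate (min i p.2.length) true) hr.range ?_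
  have hu' : Poly (fun p : (List Bool × List Bool) × ℕ => p.1.2) :=
    Poly.snd (Poly.fst Poly.id)
  refine Poly.append hu' (V7.poly_replicate ?_)
  exact UPoly.of_le (Poly.min (Poly.snd Poly.id) (Poly.length hu')) (UPoly.length hu')
    (fun p => min_le_right _ _)

/-- the verdict -/
def HC (y : List Bool × List Bool) : List Bool :=
  [((lst (unpair y.1).1).all (fun u => decide (u.length = μ (ln y.1))) &&
    (lst (unpair y.1).1).all (fun u => decide (((lst (unpair y.1).1).filter
      (fun v => decide (v = u))).length ≤ 1))) &&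
    ((decide (thr (ρ (ln y.1)) + valB (unpair y.1).2 < (lst (unpair y.1).1).length) &&
      P (unpair y.1).2) && y.2.all fun b => b)]

variable {ρ μ P} in
theorem poly_HC (hρ : UPoly (fun x : List Bool => ρ x.length))
    (hμ : Poly (fun x : List Bool => μ x.length)) (hP : Poly P) : Poly (HC ρ μ P) := by
  have h0 : Poly (fun y : List Bool × List Bool => lst (unpair y.1).1) :=
    poly_lst.comp (Poly.fst (poly_unpair.comp (Poly.fst Poly.id)))
  have hx : Poly (fun y : List Bool × List Bool => (unpair y.1).2) :=
    Poly.snd (poly_unpair.comp (Poly.fst Poly.id))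
  have hn : UPoly (fun y : List Bool × List Bool => ρ (ln y.1)) := hρ.comp hx
  have hm : Poly (fun y : List Bool × List Bool => μ (ln y.1)) := hμ.comp hx
  unfold HC
  refine Poly.cons (Poly.and (Poly.and ?_ ?_) (Poly.and (Poly.and ?_ (hP.comp hx)) ?_))
    (NPC.Poly.const [])
  · exact Poly.all (p := fun (y : List Bool × List Bool) (u : List Bool) =>
      decide (u.length = μ (ln y.1))) h0 (Poly.decide_eq (Poly.length (Poly.snd Poly.id))
        (hm.comp (Poly.fst Poly.id)))
  · refine Poly.all (p := fun (y : List Bool × List Bool) (u : List Bool) =>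
      decide (((lst (unpair y.1).1).filter (fun v => decide (v = u))).length ≤ 1)) h0
      (Poly.decide_le (Poly.length ?_) (NPC.Poly.const 1))
    refine Poly.filter (l := fun p : (List Bool × List Bool) × List Bool =>
      lst (unpair p.1.1).1) (p := fun (p : (List Bool × List Bool) × List Bool) v =>
        decide (v = p.2)) (h0.comp (Poly.fst Poly.id)) ?_
    exact Poly.decide_eq (Poly.snd Poly.id) (Poly.snd (Poly.fst Poly.id))
  · exact Poly.decide_lt (Poly.add (poly_thr hn) (Poly.valBits hx)) (Poly.length h0)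
  · exact Poly.all (p := fun (_ : List Bool × List Bool) (b : Bool) => b) (Poly.snd Poly.id)
      (Poly.snd Poly.id)

theorem filter_eq (l : List (List Bool)) (u : List Bool) :
    l.count u = (l.filter (fun v => decide (v = u))).length := by
  rw [List.count, List.countP_eq_length_filter]
  congr 1
  apply List.filter_congr
  intro v _
  by_cases h : v = u <;> simp [h]

theorem nodup_iff (l : List (List Bool)) :
    (∀ u ∈ l, (l.filter (fun v => decide (v = u))).length ≤ 1) ↔ l.Nodup := by
  rw [List.nodup_iff_count_le_one]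
  constructor
  · intro h u
    by_cases hu : u ∈ l
    · rw [filter_eq]
      exact h u hu
    · rw [List.count_eq_zero_of_not_mem hu]
      exact Nat.zero_le 1
  · intro h u _
    rw [← filter_eq]
    exact h u

theorem ln_pair (w x : List Bool) : ln (pairBits w x) = x.length := by
  unfold ln
  rw [unpair_pairBits]

theorem HC_iff (A : Oracle) (w x : List Bool) :
    HC ρ μ P (pairBits w x, (QC ρ (pairBits w x)).map A) = [true] ↔
      (∀ u ∈ lst w, u.length = μ x.length) ∧ (lst w).Nodup ∧
      (thr (ρ x.length) + valB x < (lst w).length ∧ P x = true) ∧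
      ∀ u ∈ lst w, ∀ i < μ x.length - 2 * (ρ x.length - (ρ x.length).size),
        A (u ++ List.replicate i true) = true := by
  unfold HC QC
  simp only [ln_pair, unpair_pairBits, List.cons.injEq, and_true, Bool.and_eq_true,
    decide_eq_true_eq, List.all_eq_true, List.mem_map, List.mem_flatMap, List.mem_range]
  rw [nodup_iff]
  constructor
  · rintro ⟨⟨h1, h2⟩, h3, h4⟩
    refine ⟨h1, h2, h3, fun u hu i hi => ?_⟩
    apply h4
    have h5 := h1 u hu
    refine ⟨_, ⟨u, hu, i, ?_, rfl⟩, ?_⟩
    · rw [h5]
      exact hi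
    · rw [min_eq_left (by omega)]
  · rintro ⟨h1, h2, h3, h4⟩
    refine ⟨⟨h1, h2⟩, h3, ?_⟩
    rintro b ⟨_, ⟨u, hu, i, hi, rfl⟩, rfl⟩
    have h5 := h1 u hu
    rw [h5] at hi
    unfold ex at hi
    rw [min_eq_left (by omega)]
    exact h4 u hu i hi

variable {ρ μ P} in
/-- certificates for the test language -/
theorem cg_cert (A : Oracle) (x : List Bool) (hx : x ∈ CG ρ μ P A) : ∃ w : List Bool,
    w.length ≤ (2 ^ (2 * ρ x.length) + valB x + 1) * (4 * μ x.length + 2) + 1 ∧
    HC ρ μ P (pairBits w x, (QC ρ (pairBits w x)).map A) = [true] := by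
  classical
  have hfin : {w : List Bool | w.length = μ x.length ∧
      ∀ i < μ x.length - 2 * (ρ x.length - (ρ x.length).size),
        A (w ++ List.replicate i true) = true}.Finite :=
    (List.finite_length_eq Bool (μ x.length)).subset fun w hw => hw.1
  have hx' : thr (ρ x.length) + valB x + 1 ≤ wins A (μ x.length) (ρ x.length) := hx.2
  obtain ⟨S, hS, hS2⟩ := Set.exists_subset_card_eq hx'
  have hSf : S.Finite := hfin.subset hS
  set F := hSf.toFinset with hF
  have hFc : F.card = thr (ρ x.length) + valB x + 1 := by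
    rw [← hS2, Set.ncard_eq_toFinset_card S hSf]
  refine ⟨bits F.toList, ?_, ?_⟩
  · rw [bits_length]
    have h1 := sz_le_length_mul F.toList (4 * μ x.length + 1) (by
      intro u hu
      rw [Finset.mem_toList, hF, Set.Finite.mem_toFinset] at hu
      have := (hS hu).1
      have h2 := sz_listBool_le u
      omega)
    rw [Finset.length_toList, hFc] at h1
    have h3 : thr (ρ x.length) ≤ 2 ^ (2 * ρ x.length) := by
      unfold thr
      refine (Nat.sub_le _ _).trans (Nat.pow_le_pow_right (by norm_num) (by omega))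
    refine h1.trans ?_
    gcongr
  · rw [HC_iff, lst_bits]
    refine ⟨fun u hu => ?_, Finset.nodup_toList _, ⟨?_, hx.1⟩, fun u hu => ?_⟩
    · rw [Finset.mem_toList, hF, Set.Finite.mem_toFinset] at hu
      exact (hS hu).1
    · rw [Finset.length_toList, hFc]
      omega
    · rw [Finset.mem_toList, hF, Set.Finite.mem_toFinset] at hu
      exact (hS hu).2

variable {ρ μ P} in
theorem cg_sound (A : Oracle) (x w : List Bool)
    (hw : HC ρ μ P (pairBits w x, (QC ρ (pairBits w x)).map A) = [true]) : x ∈ CG ρ μ P A := by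
  classical
  rw [HC_iff] at hw
  obtain ⟨h1, h2, h3, h4⟩ := hw
  have hfin : {w : List Bool | w.length = μ x.length ∧
      ∀ i < μ x.length - 2 * (ρ x.length - (ρ x.length).size),
        A (w ++ List.replicate i true) = true}.Finite :=
    (List.finite_length_eq Bool (μ x.length)).subset fun w hw => hw.1
  have h5 : (((lst w).toFinset : Finset (List Bool)) : Set (List Bool)) ⊆
      {w : List Bool | w.length = μ x.length ∧
        ∀ i < μ x.length - 2 * (ρ x.length - (ρ x.length).size),
          A (w ++ List.replicate i true) = true} := by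
    intro u hu
    rw [Finset.mem_coe, List.mem_toFinset] at hu
    exact ⟨h1 u hu, h4 u hu⟩
  have h6 := Set.ncard_le_ncard h5 hfin
  rw [Set.ncard_coe_finset, List.toFinset_card_of_nodup h2] at h6
  refine ⟨h3.2, ?_⟩
  unfold wins
  have := h3.1
  omega

end Gen

theorem cl_eq (A : Oracle) : CL A = CG id (fun n => 2 ^ n) (fun _ => true) A := by
  ext x
  unfold CL CG
  simp

/-- The test language is in `NE`. -/
theorem cl_ne (A : Oracle) : InNTime Lin A (CL A) := by
  rw [cl_eq]
  have hρ : UPoly (fun x : List Bool => id x.length) := UPoly.length Poly.id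
  have hμ : Poly (fun x : List Bool => (fun n => 2 ^ n) x.length) :=
    A4.poly_two_pow (UPoly.length Poly.id)
  refine ⟨_, IsFP.tt (poly_QC hρ) (poly_HC hρ hμ (NPC.Poly.const true)), _, ⟨8, rfl⟩,
    fun x => ⟨fun hx => ?_, fun ⟨w, _, hw⟩ => cg_sound A x w hw⟩⟩
  obtain ⟨w, hw, hw2⟩ := cg_cert A x hx
  refine ⟨w, hw.trans ?_, hw2⟩
  have h2 := valB_lt x
  rw [Polynomial.eval_mul, Polynomial.eval_C, Polynomial.eval_add, Polynomial.eval_X,
    Polynomial.eval_one]
  have h5 : 2 ^ (8 * (x.length + 1)) = 256 * ((2 ^ x.length) ^ 8) := by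
    rw [mul_add, pow_add, ← pow_mul, mul_comm x.length 8]
    norm_num
    ring
  rw [h5, id, two_mul, pow_add]
  obtain ⟨t, ht⟩ : ∃ t, t = 2 ^ x.length := ⟨_, rfl⟩
  rw [← ht] at h2 ⊢
  have ht1 : 1 ≤ t := by omega
  have h6 : t * t + valB x + 1 ≤ 3 * (t * t) := by nlinarith
  have h7 : (t * t + valB x + 1) * (4 * t + 2) + 1 ≤ 3 * (t * t) * (6 * t) + 1 := by
    have : 4 * t + 2 ≤ 6 * t := by omega
    gcongr
  have h8 : t ^ 3 ≤ t ^ 8 := Nat.pow_le_pow_right ht1 (by norm_num)
  have h9 : 1 ≤ t ^ 8 := Nat.one_le_pow _ _ ht1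
  have h10 : 3 * (t * t) * (6 * t) = 18 * t ^ 3 := by ring
  omega

end Pool.Agent.TH93.CA
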