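import Pool.Agent.TH93.CA.Ev
import Pool.Agent.H622R2.Exp.KAux

/-!
# Sparse sets in `NP` whose complement needs many bits of advice
-/

set_option autoImplicit false

namespace Pool.Agent.TH93.CA

open Pool.Agent.NPC Pool.Agent.H620R2.Gauge Pool.Agent.TH678.ETH Pool.Agent.H622R2.Exp
open MeasureTheory Filter
open Pool.Agent.TH93.GL (poly_log countable_polyN bits_top)
open Pool.Agent.TH683.AT (poly_small)

/-- the exponent at length `n` -/
def rk (k n : ℕ) : ℕ := k * (n.size - 1)

/-- the inputs of the test language -/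
def PS (k : ℕ) (x : List Bool) : Bool :=
  decide (x.length = 2 ^ (x.length.size - 1)) && decide (valB x < 2 ^ rk k x.length)

/-- the sparse test language -/
def SL (k : ℕ) (A : Oracle) : Set (List Bool) := CG (rk k) (fun n => n) (PS k) A

theorem upoly_rk (k : ℕ) : UPoly (fun x : List Bool => rk k x.length) := by
  unfold rk
  refine (UPoly.const k).mul (UPoly.of_le (n := fun x : List Bool => x.length.size) ?_ ?_
    fun x => Nat.sub_le _ _)
  · exact Poly.sub (poly_size (Poly.length Poly.id)) (NPC.Poly.const 1)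
  · exact KAux.upoly_size

theorem poly_PS (k : ℕ) : Poly (PS k) := by
  unfold PS
  have hl : Poly (fun x : List Bool => x.length) := Poly.length Poly.id
  refine Poly.and (Poly.decide_eq hl (A4.poly_two_pow ?_))
    (Poly.decide_lt (Poly.valBits Poly.id) (A4.poly_two_pow (upoly_rk k)))
  exact UPoly.of_le (Poly.sub (poly_size hl) (NPC.Poly.const 1)) KAux.upoly_size
    fun x => Nat.sub_le _ _

theorem pow_rk_le (k n : ℕ) (hn : 1 ≤ n) : 2 ^ rk k n ≤ n ^ k := by
  unfold rk
  rw [mul_comm, pow_mul]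
  apply Nat.pow_le_pow_left
  rw [size_eq hn, Nat.add_sub_cancel]
  exact Nat.pow_log_le_self 2 (by omega)

/-- The sparse test language is in `NP`. -/
theorem sl_np (k : ℕ) (A : Oracle) : IsNP A (SL k A) := by
  have hμ : Poly (fun x : List Bool => (fun n => n) x.length) := Poly.length Poly.id
  refine ⟨_, ((Polynomial.X ^ k) ^ 2 + Polynomial.X ^ k + 1) * (4 * Polynomial.X + 2) + 1,
    IsFP.tt (poly_QC (upoly_rk k)) (poly_HC (upoly_rk k) hμ (poly_PS k)),
    fun x => ⟨fun hx => ?_, fun ⟨w, _, hw⟩ => cg_sound A x w hw⟩⟩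
  obtain ⟨w, hw, hw2⟩ := cg_cert A x hx
  refine ⟨w, hw.trans ?_, hw2⟩
  have hP : PS k x = true := hx.1
  unfold PS at hP
  rw [Bool.and_eq_true, decide_eq_true_eq, decide_eq_true_eq] at hP
  obtain ⟨h1, h2⟩ := hP
  have hn : 1 ≤ x.length := by
    rw [h1]
    exact Nat.one_le_two_pow
  have h3 := pow_rk_le k x.length hn
  simp only [Polynomial.eval_mul, Polynomial.eval_add, Polynomial.eval_X, Polynomial.eval_ofNat,
    Polynomial.eval_one, Polynomial.eval_pow]
  have h4 : 2 ^ (2 * rk k x.length) ≤ (x.length ^ k) ^ 2 := by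
    rw [mul_comm, pow_mul]
    exact Nat.pow_le_pow_left h3 2
  have h5 : valB x ≤ x.length ^ k := by omega
  gcongr

/-- The test language is sparse. -/
theorem sl_sparse (k : ℕ) (A : Oracle) (n : ℕ) :
    Set.ncard {x : List Bool | x ∈ SL k A ∧ x.length = n} ≤ n ^ k := by
  rcases Nat.eq_zero_or_pos n with rfl | hn
  · have : {x : List Bool | x ∈ SL k A ∧ x.length = 0} = ∅ := by
      ext x
      simp only [Set.mem_ofPred_eq, Set.mem_empty_iff_false, iff_false, not_and]
      rintro ⟨hP, _⟩ hx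
      unfold PS at hP
      rw [Bool.and_eq_true, decide_eq_true_eq, hx] at hP
      exact absurd hP.1 (by positivity)
    rw [this, Set.ncard_empty]
    exact Nat.zero_le _
  · have h1 : Set.ncard {x : List Bool | x ∈ SL k A ∧ x.length = n} ≤
        Set.ncard ((Finset.range (2 ^ rk k n) : Finset ℕ) : Set ℕ) := by
      apply Set.ncard_le_ncard_of_injOn valB
      · rintro y ⟨⟨hP, _⟩, hy⟩
        unfold PS at hP
        rw [Bool.and_eq_true, decide_eq_true_eq, decide_eq_true_eq, hy] at hP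
        rw [Finset.mem_coe, Finset.mem_range]
        exact hP.2
      · rintro y ⟨_, hy⟩ y' ⟨_, hy'⟩ he
        have h2 := bits_top y
        have h3 := bits_top y'
        rw [he, hy, ← hy', h3] at h2
        exact (List.append_cancel_right h2).symm
    rw [Set.ncard_coe_finset, Finset.card_range] at h1
    exact h1.trans (pow_rk_le k n hn)

theorem size_two_pow (j : ℕ) : (2 ^ j).size = j + 1 := by
  rw [size_eq Nat.one_le_two_pow, Nat.log_pow (by norm_num)]

theorem rk_two_pow (k j : ℕ) : rk k (2 ^ j) = k * j := by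
  unfold rk
  rw [size_two_pow, Nat.add_sub_cancel]

/-- one algorithm -/
theorem sp_one (M : Alg) (q : Polynomial ℕ) {k : ℕ} (hk : 1 ≤ k) :
    ∀ᵐ A ∂ranO, ∀ᶠ j : ℕ in atTop,
      A ∉ EvS M (2 ^ j) (k * j) (q.eval (2 ^ j)) (bitsOf (2 ^ j)) := by
  obtain ⟨c, hc⟩ := poly_log (M.p.comp (2 * q + (2 * Polynomial.C k + 1) * Polynomial.X + 2))
  obtain ⟨n₀, hn₀⟩ := poly_small (3 * Polynomial.C k * Polynomial.X + 4)
  obtain ⟨n₁, hn₁⟩ := poly_small (Polynomial.C (k + c) * Polynomial.X + Polynomial.C (c + 3))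
  refine ae_not (C := 20) ?_
  filter_upwards [eventually_ge_atTop 4, eventually_ge_atTop n₀, eventually_ge_atTop n₁]
    with j h2 h3 h4
  have h5 := hn₀ j h3
  have h6 := hn₁ j h4
  simp only [Polynomial.eval_mul, Polynomial.eval_add, Polynomial.eval_X,
    Polynomial.eval_ofNat, Polynomial.eval_C] at h5 h6
  have hkj : 4 ≤ k * j := by nlinarith
  refine (ev_stage M (Λ := 2 ^ j) (T := 2 ^ (c * (j + 1)))
    (fun v => (length_bitsOf _ v).le) ?_ hkj (by nlinarith) ?_).trans ?_
  · have h7 := hc (2 ^ j)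
    rw [Nat.log_pow (by norm_num)] at h7
    refine le_trans ?_ h7
    rw [Polynomial.eval_comp]
    simp only [Polynomial.eval_add, Polynomial.eval_mul, Polynomial.eval_ofNat, Polynomial.eval_X,
      Polynomial.eval_C, Polynomial.eval_one]
    apply eval_mono
    have h8 : j ≤ 2 ^ j := Nat.lt_two_pow_self.le
    have h9 : k * j ≤ k * 2 ^ j := Nat.mul_le_mul_left _ h8
    nlinarith
  · rw [Nat.log_pow (by norm_num)]
    nlinarith
  · apply ENNReal.ofReal_le_ofReal
    have h7 : (0 : ℝ) < (j : ℝ) ^ 2 := by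
      have : (0 : ℝ) < j := by exact_mod_cast (by omega : 0 < j)
      positivity
    have h8 : (j : ℝ) ^ 2 ≤ ((k * j : ℕ) : ℝ) ^ 2 := by
      have : j ≤ k * j := Nat.le_mul_of_pos_left _ hk
      exact pow_le_pow_left₀ (Nat.cast_nonneg _) (by exact_mod_cast this) 2
    gcongr

/-- Relative to almost every oracle the complements of the sparse test languages are hard. -/
theorem sp_hard : ∀ᵐ A ∂ranO, ∀ k : ℕ, 1 ≤ k → ∀ (q : Polynomial ℕ) (a : ℕ → ℕ),
    InNTAdv (fun n => q.eval n) a A (SL k A)ᶜ →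
      ∀ᶠ j : ℕ in atTop, k * j < a (2 ^ j) + 3 * (Nat.log 2 (k * j) + 1) := by
  have hcp : Countable (Polynomial ℕ) := countable_polyN
  have h1 : ∀ᵐ A ∂ranO, ∀ θ : Alg × Polynomial ℕ × ℕ, 1 ≤ θ.2.2 → ∀ᶠ j : ℕ in atTop,
      A ∉ EvS θ.1 (2 ^ j) (θ.2.2 * j) (θ.2.1.eval (2 ^ j)) (bitsOf (2 ^ j)) := by
    refine ae_all_iff.2 fun θ => ?_
    by_cases h : 1 ≤ θ.2.2
    · filter_upwards [sp_one θ.1 θ.2.1 h] with A hA _
      exact hA
    · exact Filter.Eventually.of_forall fun A h2 => absurd h2 h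
  filter_upwards [h1] with A hA k hk q a ⟨V, α, ⟨M, hM⟩, hα, hx⟩
  obtain ⟨n₀, hn₀⟩ := poly_small (Polynomial.C k * Polynomial.X)
  filter_upwards [hA (M, q, k) hk, eventually_ge_atTop 1, eventually_ge_atTop n₀] with j hn hn1 hj
  by_contra hcon
  push Not at hcon
  have hkj : 1 ≤ k * j := Nat.mul_pos hk hn1
  have hsz := size_eq hkj
  refine hn ⟨α (2 ^ j), ?_, fun v hv => ?_⟩
  · have := hα (2 ^ j)
    show (α (2 ^ j)).length + 3 * (k * j).size ≤ k * j
    omega
  · have hkj2 := hn₀ j hj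
    rw [Polynomial.eval_mul, Polynomial.eval_C, Polynomial.eval_X] at hkj2
    have hvj : v < 2 ^ 2 ^ j :=
      lt_of_lt_of_le hv (Nat.pow_le_pow_right (by norm_num) hkj2)
    have hv' : v < 2 ^ (k * j) := hv
    have h2 := hx (bitsOf (2 ^ j) v)
    have h3 : (bitsOf (2 ^ j) v ∈ (SL k A)ᶜ) ↔ wins A (2 ^ j) (k * j) ≤ thr (k * j) + v := by
      unfold SL CG PS
      rw [Set.mem_compl_iff, Set.mem_ofPred_eq, length_bitsOf, valB_bitsOf _ v hvj,
        rk_two_pow, size_two_pow, Nat.add_sub_cancel]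
      simp only [decide_true, Bool.true_and, decide_eq_true_eq, hv', true_and, not_lt]
    show wins A (2 ^ j) (k * j) ≤ thr (k * j) + v ↔ _
    rw [← h3, h2, length_bitsOf]
    refine exists_congr fun w => and_congr_right fun _ => ?_
    rw [hM, Option.some.injEq]

end Pool.Agent.TH93.CA
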