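import Pool.Agent.TH93.CA.Defs
import Pool.Agent.TH93.CA.Bound
import Pool.Agent.TH93.GL.Low
import Pool.Agent.H620R2.Gauge2.CoverE
import Pool.Agent.H620R2.GaugeX.X1

/-!
# One stage: the probability that an algorithm compares the number of winners correctly
-/

set_option autoImplicit false

namespace Pool.Agent.TH93.CA

open Pool.Agent.NPC Pool.Agent.H620R2.Gauge Finset H568R2 Pool.Agent.H676 Pool.Agent.TH678.ETH
open MeasureTheory Filter
open Pool.Agent.TH93.GL (wt length_wt wt_inj advs mem_advs card_advs1 poly_log)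

open Classical in
/-- the positions of the strings of the cell number `j` -/
noncomputable def WC (N m s : ℕ) (j : Fin (2 ^ m)) : Finset (Fin N) :=
  univ.filter (fun e => ∃ i < s, str e = wt [] m j.val i)

theorem WC_lt {N m s : ℕ} (hs : s ≤ m) (hN : 2 ^ (2 * m + 1) ≤ N + 1) (j : ℕ) {i : ℕ}
    (hi : i < s) : idx (wt [] m j i) < N := by
  have h1 := idx_lt (wt [] m j i)
  rw [length_wt, List.length_nil] at h1
  have h2 : 2 ^ (0 + m + i + 1) ≤ 2 ^ (2 * m + 1) :=
    Nat.pow_le_pow_right (by norm_num) (by omega)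
  omega

theorem WC_sys {N m s : ℕ} (hs : s ≤ m) (hN : 2 ^ (2 * m + 1) ≤ N + 1) :
    Sys (WC N m s) s where
  card j := by
    have h := Finset.card_bij (s := Finset.range s) (t := WC N m s j)
      (fun i hi => ⟨idx (wt [] m j.val i), WC_lt hs hN j.val (Finset.mem_range.1 hi)⟩) (by
        intro i hi
        rw [WC, Finset.mem_filter]
        exact ⟨Finset.mem_univ _, i, Finset.mem_range.1 hi, str_idx _⟩) (by
        intro i hi i' hi' h
        have h1 : idx (wt [] m j.val i) = idx (wt [] m j.val i') := by simpa using h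
        have h2 : wt [] m j.val i = wt [] m j.val i' := by
          rw [← str_idx (wt [] m j.val i), h1, str_idx]
        have := congrArg List.length h2
        rw [length_wt, length_wt] at this
        omega) (by
        intro e he
        rw [WC, Finset.mem_filter] at he
        obtain ⟨_, i, hi, h⟩ := he
        refine ⟨i, Finset.mem_range.2 hi, ?_⟩
        apply Fin.ext
        show idx (wt [] m j.val i) = e
        rw [← h, idx_str])
    rw [← h, Finset.card_range]
  disj j j' hne := by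
    rw [Finset.disjoint_left]
    intro e he he'
    rw [WC, Finset.mem_filter] at he he'
    obtain ⟨_, i, _, hi⟩ := he
    obtain ⟨_, i', _, hi'⟩ := he'
    rw [hi] at hi'
    obtain ⟨_, h2, _⟩ := wt_inj rfl j.2 j'.2 hi'
    exact hne (Fin.ext h2)

/-- the number of winners -/
theorem wins_eq {N m r : ℕ} (hN : 2 ^ (2 * m + 1) ≤ N + 1) (A : Oracle) :
    wins A m r = (win (WC N m (m - 2 * (r - r.size))) (pre N A)).card := by
  unfold wins
  rw [← Set.ncard_coe_finset, ← Set.ncard_image_of_injective (f := fun j : Fin (2 ^ m) =>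
    bitsOf m j.val) _ (fun j j' h => Fin.ext (bitsOf_inj j.2 j'.2 h))]
  congr 1
  ext w
  simp only [Set.mem_ofPred_eq, Set.mem_image, mem_coe, mem_win]
  constructor
  · rintro ⟨hw, h⟩
    obtain ⟨j, hj, hjw⟩ := exists_bitsOf w
    rw [hw] at hj hjw
    refine ⟨⟨j, hj⟩, fun e he => ?_, hjw⟩
    rw [WC, Finset.mem_filter] at he
    obtain ⟨_, i, hi, hei⟩ := he
    unfold pre
    rw [hei]
    unfold Pool.Agent.TH93.GL.wt
    rw [hjw]
    exact h i hi
  · rintro ⟨j, hj, rfl⟩
    refine ⟨length_bitsOf _ _, fun i hi => ?_⟩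
    have hlt := WC_lt (s := m - 2 * (r - r.size)) (Nat.sub_le _ _) hN j.val hi
    have h3 := hj ⟨idx (wt [] m j.val i), hlt⟩ (by
      rw [WC, Finset.mem_filter]
      exact ⟨Finset.mem_univ _, i, hi, str_idx _⟩)
    unfold pre at h3
    simp only at h3
    rwa [str_idx] at h3

/-- the event that `M` is right for some short advice -/
def EvS (M : Alg) (m r u : ℕ) (y : ℕ → List Bool) : Set Oracle :=
  {A | ∃ α : List Bool, α.length + 3 * r.size ≤ r ∧ ∀ v < 2 ^ r,
    (wins A m r ≤ thr r + v ↔ ∃ w : List Bool, w.length ≤ u ∧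
      M.out A (pairBits w (pairBits α (y v))) = some [true])}

open Classical in
/-- the probability of the event -/
theorem ev_stage (M : Alg) {m r u Λ T : ℕ} {y : ℕ → List Bool} (hy : ∀ v, (y v).length ≤ Λ)
    (hT : M.p.eval (2 * u + 2 * r + Λ + 2) ≤ T) (hr : 4 ≤ r) (hm : 3 * r + 4 ≤ m)
    (hTM : r + 1 + Nat.log 2 T + 1 + 1 ≤ m) :
    ranO (EvS M m r u y) ≤ ENNReal.ofReal (20 / ((r : ℝ) ^ 2)) := by
  obtain ⟨qb, hqb⟩ := Alg.out_local M
  have hsz : r < 2 ^ r.size := Nat.lt_size_self r
  by_cases h3 : 3 * r.size ≤ r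
  swap
  · have : EvS M m r u y = ∅ := by
      ext A
      simp only [EvS, Set.mem_ofPred_eq, Set.mem_empty_iff_false, iff_false, not_exists, not_and]
      intro α hα
      omega
    rw [this, measure_empty]
    exact zero_le
  have hs1 : 1 ≤ r.size := by
    rw [Nat.one_le_iff_ne_zero]
    intro h0
    rw [h0] at hsz
    omega
  -- the parameters
  obtain ⟨h, hhd⟩ : ∃ h, h = r - r.size := ⟨_, rfl⟩
  obtain ⟨B, hB⟩ : ∃ B, B = qb.eval (2 * u + 2 * r + Λ + 2) + 2 * m := ⟨_, rfl⟩
  obtain ⟨N, hN⟩ : ∃ N, N = 2 ^ (B + 1) := ⟨_, rfl⟩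
  have hM2 : (2 : ℕ) ^ m = 2 ^ (2 * h) * 2 ^ (m - 2 * h) := by
    rw [← pow_add]
    congr 1
    omega
  have hTM : 2 ^ r * (2 * T) + 2 ^ (2 * h + 2) ≤ 2 ^ m := by
    have e0 : T ≤ 2 ^ (Nat.log 2 T + 1) := (Nat.lt_pow_succ_log_self (by norm_num) T).le
    have e1 : 2 ^ r * (2 * T) ≤ 2 ^ (m - 1) := by
      calc 2 ^ r * (2 * T) ≤ 2 ^ r * (2 * 2 ^ (Nat.log 2 T + 1)) := by gcongr
        _ = 2 ^ (r + 1 + (Nat.log 2 T + 1)) := by rw [pow_add, pow_add]; ring
        _ ≤ _ := Nat.pow_le_pow_right (by norm_num) (by omega)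
    have e2 : 2 ^ (2 * h + 2) ≤ 2 ^ (m - 1) := Nat.pow_le_pow_right (by norm_num) (by omega)
    have e3 : 2 ^ m = 2 ^ (m - 1) + 2 ^ (m - 1) := by
      rw [← two_mul, ← pow_succ']
      congr 1
      omega
    omega
  have hNW : 2 ^ (2 * m + 1) ≤ N + 1 := by
    have : 2 ^ (2 * m + 1) ≤ 2 ^ (B + 1) := Nat.pow_le_pow_right (by norm_num) (by omega)
    omega
  have hsys := WC_sys (N := N) (m := m) (s := m - 2 * h) (Nat.sub_le _ _) hNW
  set S : Finset (List Bool) := (advs (r - 3 * r.size)).filter fun α =>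
    α.length ≤ r - 3 * r.size with hS
  set Acc : List Bool → ℕ → (Fin N → Bool) → Prop := fun α v z =>
    ∃ w : List Bool, w.length ≤ u ∧
      M.out (orc N z) (pairBits w (pairBits α (y v))) = some [true] with hAcc
  have hlen : ∀ w α : List Bool, w.length ≤ u → α.length ≤ r → ∀ v,
      (pairBits w (pairBits α (y v))).length ≤ 2 * u + 2 * r + Λ + 2 := by
    intro w α hw hα v
    have := hy v
    rw [length_pairBits, length_pairBits]
    omega
  have hbd := bound_all (I := Fin N) (J := Fin (2 ^ m)) hsys (h := h) (n := r) (T := T)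
    (by omega) (by omega) (by omega) (by rw [Fintype.card_fin]; exact hM2) (b := thr r)
    (by omega) (by
      unfold thr
      rw [← hhd]
      apply Nat.sub_add_cancel
      exact Nat.pow_le_pow_right (by norm_num) (by omega)) (by rw [Fintype.card_fin]; exact hTM)
    S Acc (by
      rintro α hα v _ z ⟨w, hw, hacc⟩
      rw [hS, Finset.mem_filter] at hα
      obtain ⟨U, hU, hU2⟩ := run_local M (orc N z) (pairBits w (pairBits α (y v)))
        (M.p.eval (pairBits w (pairBits α (y v))).length) []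
      refine ⟨univ.filter fun e : Fin N => str e ∈ U, ?_, ?_⟩
      · have h4 : (univ.filter fun e : Fin N => str e ∈ U).card ≤ U.card := by
          refine Finset.card_le_card_of_injOn (fun e : Fin N => str e)
            (fun e he => (Finset.mem_filter.1 he).2) ?_
          intro e _ e' _ he
          apply Fin.ext
          have := congrArg idx he
          rwa [idx_str, idx_str] at this
        refine h4.trans (hU.trans (le_trans ?_ hT))
        exact eval_mono _ (hlen w α hw (by omega) v)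
      · intro z' hz'
        refine ⟨w, hw, ?_⟩
        have h5 : M.out (orc N z') (pairBits w (pairBits α (y v))) =
            M.out (orc N z) (pairBits w (pairBits α (y v))) := by
          apply hU2
          intro q hq
          unfold orc
          by_cases hqN : idx q < N
          · rw [dif_pos hqN, dif_pos hqN]
            apply hz'
            rw [Finset.mem_filter]
            refine ⟨Finset.mem_univ _, ?_⟩
            show str (idx q) ∈ U
            rwa [str_idx]
          · rw [dif_neg hqN, dif_neg hqN]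
        rw [h5]
        exact hacc)
  obtain ⟨P, hP⟩ : ∃ P : (Fin N → Bool) → Prop, P = fun z => ∃ α ∈ S,
      Cor (WC N m (m - 2 * h)) (Acc α) (thr r) (2 ^ r) z := ⟨_, rfl⟩
  have hev : EvS M m r u y ⊆ {A : Oracle | P (pre N A)} := by
    rintro A ⟨α, hα, hx⟩
    rw [Set.mem_ofPred_eq, hP]
    refine ⟨α, ?_, fun v hvr => ?_⟩
    · rw [hS, Finset.mem_filter]
      exact ⟨mem_advs (by omega), by omega⟩
    · have h4 := hx v hvr
      have h5 : (wins A m r ≤ thr r + v) ↔
          (win (WC N m (m - 2 * h)) (pre N A)).card ≤ thr r + v := by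
        rw [wins_eq hNW, ← hhd]
      rw [← h5, h4]
      rw [hAcc]
      dsimp only
      refine exists_congr fun w => and_congr_right fun hw => ?_
      have h6 : M.out (orc N (pre N A)) (pairBits w (pairBits α (y v))) =
          M.out A (pairBits w (pairBits α (y v))) := by
        obtain ⟨Q, _, hQl, hQA⟩ := hqb A (pairBits w (pairBits α (y v)))
        apply hQA
        intro q hq
        apply orc_pre
        have h7 := idx_lt q
        have h8 := hQl q hq
        have h9 := eval_mono qb (hlen w α hw (by omega) v)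
        have h10 : 2 ^ (q.length + 1) ≤ 2 ^ (B + 1) := Nat.pow_le_pow_right (by norm_num) (by omega)
        omega
      rw [h6]
  refine (measure_mono hev).trans ((Pool.Agent.TH683.CP.ranO_pre P).trans
    (ENNReal.ofReal_le_ofReal ?_))
  have h6 := card_of_Ex P
  rw [← h6]
  have h7 : tot (Fin N) * 2 ^ (-(N : ℝ)) = 1 := by
    unfold tot
    rw [Fintype.card_fun, Fintype.card_fin, Fintype.card_bool]
    push_cast
    rw [← Real.rpow_natCast, ← Real.rpow_add (by norm_num)]
    simp
  have h8 : (0 : ℝ) < 2 ^ (-(N : ℝ)) := by positivity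
  have hbd2 : ((univ.filter P).card : ℝ) ≤
      (4 * (2 ^ (2 * h) / 2 ^ (2 * r)) + S.card * (8 / 2 ^ h)) * tot (Fin N) := by
    refine le_trans (le_of_eq ?_) hbd
    congr 2
    ext z
    simp only [mem_filter, hP]
  refine (mul_le_mul_of_nonneg_right hbd2 h8.le).trans ?_
  rw [mul_assoc, h7, mul_one]
  -- the numbers
  have hnr : (0 : ℝ) < (r : ℝ) ^ 2 := by
    have : (0 : ℝ) < r := by exact_mod_cast (by omega : 0 < r)
    positivity
  obtain ⟨l, hl⟩ : ∃ l, l = r.size := ⟨_, rfl⟩
  rw [← hl] at hsz h3 hhd hs1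
  have e1 : (r : ℝ) ^ 2 ≤ 2 ^ (2 * l) := by
    rw [mul_comm, pow_mul]
    have : (r : ℝ) ≤ 2 ^ l := by exact_mod_cast hsz.le
    exact pow_le_pow_left₀ (Nat.cast_nonneg _) this 2
  have e2 : (2 : ℝ) ^ (2 * h) / 2 ^ (2 * r) = 1 / 2 ^ (2 * l) := by
    have : (2 : ℝ) ^ (2 * r) = 2 ^ (2 * h) * 2 ^ (2 * l) := by
      rw [← pow_add]
      congr 1
      omega
    rw [this]
    field_simp
  have e3 : (S.card : ℝ) * (8 / 2 ^ h) ≤ 16 / 2 ^ (2 * l) := by
    have h9 : (S.card : ℝ) ≤ 2 * 2 ^ (r - 3 * l) := by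
      have h10 := card_advs1 (r - 3 * l)
      have h11 : S.card ≤ (advs (r - 3 * l)).card := by
        rw [hS, ← hl]
        exact Finset.card_filter_le _ _
      have h12 : S.card ≤ 2 * 2 ^ (r - 3 * l) := by
        rw [← pow_succ']
        omega
      exact_mod_cast h12
    have h10 : (2 : ℝ) ^ h = 2 ^ (r - 3 * l) * 2 ^ (2 * l) := by
      rw [← pow_add]
      congr 1
      omega
    rw [h10]
    calc (S.card : ℝ) * (8 / (2 ^ (r - 3 * l) * 2 ^ (2 * l))) ≤
          2 * 2 ^ (r - 3 * l) * (8 / (2 ^ (r - 3 * l) * 2 ^ (2 * l))) := by gcongr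
      _ = 16 / 2 ^ (2 * l) := by
          field_simp
          norm_num
  rw [e2]
  calc 4 * (1 / 2 ^ (2 * l)) + (S.card : ℝ) * (8 / 2 ^ h) ≤
        4 * (1 / 2 ^ (2 * l)) + 16 / 2 ^ (2 * l) := by linarith
    _ = 20 / 2 ^ (2 * l) := by ring
    _ ≤ 20 / (r : ℝ) ^ 2 := by gcongr

theorem size_eq {n : ℕ} (hn : 1 ≤ n) : n.size = Nat.log 2 n + 1 := by
  have h2 : Nat.log 2 n < n.size := Nat.lt_size.2 (Nat.pow_log_le_self 2 (by omega))
  have h3 : n.size ≤ Nat.log 2 n + 1 := Nat.size_le.2 (Nat.lt_pow_succ_log_self (by norm_num) n)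
  omega

end Pool.Agent.TH93.CA
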